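import Pool.Agent.W2helper94.CY.H

set_option autoImplicit false

/-!
# Bresinsky's semigroups have embedding dimension four
-/

namespace Pool.Agent.W2helper94.CY

theorem gcd_rot (p : Par) (hg : Nat.gcd (Nat.gcd p.n1 p.n2) (Nat.gcd p.n3 p.n4) = 1) :
    Nat.gcd (Nat.gcd p.rot.n1 p.rot.n2) (Nat.gcd p.rot.n3 p.rot.n4) = 1 := by
  obtain ⟨e1, e2, e3, e4⟩ := Pool.Agent.W2helper12.CY.rot_n p
  rw [e1, e2, e3, e4, Nat.gcd_comm p.n4 p.n1, Nat.gcd_assoc, ← Nat.gcd_assoc p.n4 p.n2 p.n3,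
    Nat.gcd_comm p.n4 p.n2, Nat.gcd_assoc p.n2 p.n4 p.n3, ← Nat.gcd_assoc p.n1 p.n2,
    Nat.gcd_comm p.n4 p.n3]
  exact hg

/-- all elements of the semigroup are combinations of the generators -/
theorem mem_S (p : Par) (x : ℕ) (hx : x ∈ p.S) :
    ∃ k a b d : ℕ, x = k * p.n1 + a * p.n2 + b * p.n3 + d * p.n4 := by
  obtain ⟨q, -, k, h⟩ := Pool.Agent.W2helper69.CY.nf_reduce p x hx
  exact ⟨k, q.1, q.2.1, q.2.2, by rw [h]; unfold Par.wt; ring⟩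

theorem two_le_a1 (p : Par) : 2 ≤ p.a1 := by
  have := p.h21
  have := p.h31
  unfold Par.a1
  omega

theorem a1_min' (p : Par) (hg : Nat.gcd (Nat.gcd p.n1 p.n2) (Nat.gcd p.n3 p.n4) = 1)
    (k i l j : ℕ) (hk : 0 < k) (h : k * p.n1 = i * p.n2 + l * p.n3 + j * p.n4) : p.a1 ≤ k := by
  have hinj := Pool.Agent.W2helper53.CY.nf_inj p (Pool.Agent.W2helper69.CY.nf_card p)
    (Pool.Agent.W2helper69.CY.nf_reduce p) hg
  exact Pool.Agent.W2helper81.CY.a1_min p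
    (fun q q' hq hq' k k' h => hinj q q' hq hq' k k' h) k i l j hk h

/-- `n1` is not the sum of two nonzero elements -/
theorem irr1 (p : Par) (hg : Nat.gcd (Nat.gcd p.n1 p.n2) (Nat.gcd p.n3 p.n4) = 1)
    (x y : ℕ) (hx : x ∈ p.S) (hy : y ∈ p.S) (hxy : x + y = p.n1) : x = 0 ∨ y = 0 := by
  by_contra hcon
  push Not at hcon
  obtain ⟨k, a, b, d, h⟩ := mem_S p x hx
  obtain ⟨k', a', b', d', h'⟩ := mem_S p y hy
  have hk : k = 0 := by
    by_contra hk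
    have : p.n1 ≤ k * p.n1 := Nat.le_mul_of_pos_left _ (Nat.pos_of_ne_zero hk)
    omega
  have hk' : k' = 0 := by
    by_contra hk
    have : p.n1 ≤ k' * p.n1 := Nat.le_mul_of_pos_left _ (Nat.pos_of_ne_zero hk)
    omega
  have h1 := a1_min' p hg 1 (a + a') (b + b') (d + d') Nat.one_pos (by
    rw [one_mul, ← hxy, h, h', hk, hk']; ring)
  have := two_le_a1 p
  omega

theorem ne1 (p : Par) (hg : Nat.gcd (Nat.gcd p.n1 p.n2) (Nat.gcd p.n3 p.n4) = 1) :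
    p.n1 ≠ p.n2 ∧ p.n1 ≠ p.n3 ∧ p.n1 ≠ p.n4 := by
  have := two_le_a1 p
  refine ⟨fun h => ?_, fun h => ?_, fun h => ?_⟩
  · have := a1_min' p hg 1 1 0 0 Nat.one_pos (by rw [h]; ring)
    omega
  · have := a1_min' p hg 1 0 1 0 Nat.one_pos (by rw [h]; ring)
    omega
  · have := a1_min' p hg 1 0 0 1 Nat.one_pos (by rw [h]; ring)
    omega

theorem distinct (p : Par) (hg : Nat.gcd (Nat.gcd p.n1 p.n2) (Nat.gcd p.n3 p.n4) = 1) :
    p.n1 ≠ p.n2 ∧ p.n1 ≠ p.n3 ∧ p.n1 ≠ p.n4 ∧ p.n2 ≠ p.n3 ∧ p.n2 ≠ p.n4 ∧ p.n3 ≠ p.n4 := by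
  obtain ⟨e1, e2, e3, e4⟩ := Pool.Agent.W2helper12.CY.rot_n p
  obtain ⟨f1, f2, f3, f4⟩ := Pool.Agent.W2helper12.CY.rot_n p.rot
  have h1 := ne1 p hg
  have h2 := ne1 p.rot (gcd_rot p hg)
  have h3 := ne1 p.rot.rot (gcd_rot p.rot (gcd_rot p hg))
  rw [e1, e2, e3, e4] at h2
  rw [f1, f2, f3, f4, e1, e2, e3, e4] at h3
  exact ⟨h1.1, h1.2.1, h1.2.2, h3.2.2.symm, h2.2.1.symm, h2.2.2.symm⟩

theorem gens_mem (p : Par) : p.n1 ∈ p.S ∧ p.n2 ∈ p.S ∧ p.n3 ∈ p.S ∧ p.n4 ∈ p.S := by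
  unfold Par.S
  exact ⟨AddSubmonoid.subset_closure (by simp), AddSubmonoid.subset_closure (by simp),
    AddSubmonoid.subset_closure (by simp), AddSubmonoid.subset_closure (by simp)⟩

/-- the minimal generators -/
theorem min_gens (p : Par) (hg : Nat.gcd (Nat.gcd p.n1 p.n2) (Nat.gcd p.n3 p.n4) = 1) :
    {x : ℕ | x ∈ p.S ∧ x ≠ 0 ∧ ∀ a ∈ p.S, ∀ b ∈ p.S, a + b = x → a = 0 ∨ b = 0} =
      {p.n1, p.n2, p.n3, p.n4} := by
  obtain ⟨g1, g2, g3, g4⟩ := gens_mem p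
  have hp1 := Pool.Agent.W2helper12.CY.n1_pos p
  have hp2 := Pool.Agent.W2helper12.CY.n2_pos p
  have hp3 := Pool.Agent.W2helper12.CY.n3_pos p
  have hp4 := Pool.Agent.W2helper12.CY.n4_pos p
  have hS1 := Pool.Agent.W2helper12.CY.rot_S p
  have hS2 := Pool.Agent.W2helper12.CY.rot_S p.rot
  have hS3 := Pool.Agent.W2helper12.CY.rot_S p.rot.rot
  obtain ⟨e1, e2, e3, e4⟩ := Pool.Agent.W2helper12.CY.rot_n p
  obtain ⟨f1, f2, f3, f4⟩ := Pool.Agent.W2helper12.CY.rot_n p.rot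
  obtain ⟨k1, k2, k3, k4⟩ := Pool.Agent.W2helper12.CY.rot_n p.rot.rot
  have i1 := irr1 p hg
  have i4 := irr1 p.rot (gcd_rot p hg)
  have i3 := irr1 p.rot.rot (gcd_rot p.rot (gcd_rot p hg))
  have i2 := irr1 p.rot.rot.rot (gcd_rot p.rot.rot (gcd_rot p.rot (gcd_rot p hg)))
  rw [hS1, e1] at i4
  rw [hS2, hS1, f1, e4] at i3
  rw [hS3, hS2, hS1, k1, f4, e3] at i2
  ext x
  simp only [Set.mem_ofPred_eq, Set.mem_insert_iff, Set.mem_singleton_iff]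
  constructor
  · rintro ⟨hx, hx0, hirr⟩
    obtain ⟨k, a, b, d, h⟩ := mem_S p x hx
    -- an element with a generator in its representation
    have key : ∀ n : ℕ, n ∈ p.S → 0 < n → ∀ y : ℕ, y ∈ p.S → x = n + y → x = n := by
      intro n hn hn0 y hy hxy
      rcases hirr n hn y hy hxy.symm with h | h <;> omega
    have comb : ∀ k a b d : ℕ, k * p.n1 + a * p.n2 + b * p.n3 + d * p.n4 ∈ p.S := by
      intro k a b d
      have m1 := nsmul_mem g1 k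
      have m2 := nsmul_mem g2 a
      have m3 := nsmul_mem g3 b
      have m4 := nsmul_mem g4 d
      simp only [smul_eq_mul] at m1 m2 m3 m4
      exact add_mem (add_mem (add_mem m1 m2) m3) m4
    rcases Nat.eq_zero_or_pos k with hk | hk
    · rcases Nat.eq_zero_or_pos a with ha | ha
      · rcases Nat.eq_zero_or_pos b with hb | hb
        · rcases Nat.eq_zero_or_pos d with hd | hd
          · exfalso
            apply hx0
            rw [h, hk, ha, hb, hd]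
            ring
          · obtain ⟨d', rfl⟩ : ∃ d', d = d' + 1 := ⟨d - 1, by omega⟩
            exact Or.inr (Or.inr (Or.inr (key p.n4 g4 hp4 _ (comb k a b d') (by rw [h]; ring))))
        · obtain ⟨b', rfl⟩ : ∃ b', b = b' + 1 := ⟨b - 1, by omega⟩
          exact Or.inr (Or.inr (Or.inl (key p.n3 g3 hp3 _ (comb k a b' d) (by rw [h]; ring))))
      · obtain ⟨a', rfl⟩ : ∃ a', a = a' + 1 := ⟨a - 1, by omega⟩
        exact Or.inr (Or.inl (key p.n2 g2 hp2 _ (comb k a' b d) (by rw [h]; ring)))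
    · obtain ⟨k', rfl⟩ : ∃ k', k = k' + 1 := ⟨k - 1, by omega⟩
      exact Or.inl (key p.n1 g1 hp1 _ (comb k' a b d) (by rw [h]; ring))
  · rintro (rfl | rfl | rfl | rfl)
    · exact ⟨g1, hp1.ne', fun a ha b hb hab => i1 a b ha hb hab⟩
    · exact ⟨g2, hp2.ne', fun a ha b hb hab => i2 a b ha hb hab⟩
    · exact ⟨g3, hp3.ne', fun a ha b hb hab => i3 a b ha hb hab⟩
    · exact ⟨g4, hp4.ne', fun a ha b hb hab => i4 a b ha hb hab⟩

theorem ncard_gens (p : Par) (hg : Nat.gcd (Nat.gcd p.n1 p.n2) (Nat.gcd p.n3 p.n4) = 1) :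
    ({p.n1, p.n2, p.n3, p.n4} : Set ℕ).ncard = 4 := by
  obtain ⟨h12, h13, h14, h23, h24, h34⟩ := distinct p hg
  rw [Set.ncard_insert_of_notMem, Set.ncard_insert_of_notMem, Set.ncard_insert_of_notMem,
    Set.ncard_singleton]
  · simp [h34]
  · simp [h23, h24]
  · simp [h12, h13, h14]

end Pool.Agent.W2helper94.CY
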