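import Pool.Agent.W2helper94.CY.Defs

set_option autoImplicit false

namespace Pool.Agent.W2helper94.CY

open Polynomial Finset

theorem coeff_numer5 (m1 m2 m3 m4 m5 c k : ℕ) :
    (numer5 m1 m2 m3 m4 m5 c).coeff k = (if k = 0 then 1 else 0)
      - ((if k = m1 then 1 else 0) + (if k = m2 then 1 else 0) + (if k = m3 then 1 else 0)
        + (if k = m4 then 1 else 0) + (if k = m5 then 1 else 0))
      + ((if k = c - m1 then 1 else 0) + (if k = c - m2 then 1 else 0)
        + (if k = c - m3 then 1 else 0) + (if k = c - m4 then 1 else 0)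
        + (if k = c - m5 then 1 else 0)) - (if k = c then 1 else 0) := by
  simp only [numer5, coeff_sub, coeff_add, coeff_X_pow, coeff_one]

/-- recursion for the coefficients of a quotient -/
theorem coeff_quot (K P G : PowerSeries ℤ) (m B : ℕ) (hP0 : PowerSeries.coeff 0 P = 1)
    (hP : ∀ j, 0 < j → j < m → PowerSeries.coeff j P = 0) (hK : K = P * G)
    (hH : ∀ j, j < B → PowerSeries.coeff j (K - P) = 0) (hB : 0 < B) :
    ∀ k, k < B + m → PowerSeries.coeff k G = (if k = 0 then 1 else 0)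
      + PowerSeries.coeff k (K - P) := by
  have hg : K - P = P * (G - 1) := by rw [hK]; ring
  have key : ∀ k, k < B + m → PowerSeries.coeff k (G - 1) = PowerSeries.coeff k (K - P) := by
    intro k
    induction k using Nat.strong_induction_on with
    | _ k ih =>
      intro hk
      rw [hg, PowerSeries.coeff_mul]
      rw [Finset.sum_eq_single (0, k)]
      · simp [hP0]
      · rintro ⟨i, j⟩ hij hne
        have hij' : i + j = k := Finset.HasAntidiagonal.mem_antidiagonal.1 hij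
        show PowerSeries.coeff i P * PowerSeries.coeff j (G - 1) = 0
        have hi : 0 < i := by
          rcases Nat.eq_zero_or_pos i with h | h
          · subst h
            exfalso; apply hne
            have : j = k := by omega
            rw [this]
          · exact h
        by_cases him : i < m
        · rw [hP i hi him, zero_mul]
        · have hj : j < B := by omega
          rw [ih j (by omega) (by omega), hH j hj, mul_zero]
      · intro h
        exact (h (Finset.HasAntidiagonal.mem_antidiagonal.2 (Nat.zero_add k))).elim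
  intro k hk
  have := key k hk
  rw [map_sub, PowerSeries.coeff_one] at this
  linarith

theorem exists_mult (e : ℕ → ℤ) (c n : ℕ) (hc : 1 ≤ c) (hM : 0 ≤ ∑ k ∈ Icc 1 c, e (k * n))
    (hneg : e n < 0) : ∃ k, 2 ≤ k ∧ 0 < e (k * n) := by
  by_contra hcon
  push Not at hcon
  have h1 : ∑ k ∈ Icc 1 c, e (k * n) ≤ ∑ k ∈ Icc 1 c, (if k = 1 then e n else 0) := by
    apply Finset.sum_le_sum
    intro k hk
    rw [Finset.mem_Icc] at hk
    split_ifs with h
    · rw [h, one_mul]
    · exact hcon k (by omega)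
  rw [Finset.sum_ite_eq' (Icc 1 c) 1] at h1
  rw [if_pos (Finset.mem_Icc.2 ⟨le_refl 1, hc⟩)] at h1
  linarith

theorem sum_mult_le (g : ℕ → ℤ) (hg : ∀ d, 0 ≤ g d) (k N : ℕ) (hk : 0 < k) (s : Finset ℕ)
    (hN : ∀ D, N ≤ D → g D = 0) : ∑ d ∈ s, g (k * d) ≤ ∑ D ∈ range N, g D := by
  have hinj : Set.InjOn (fun d => k * d) ((s.filter fun d => k * d < N : Finset ℕ) : Set ℕ) := by
    intro a _ b _ h
    exact Nat.eq_of_mul_eq_mul_left hk h
  have h1 : ∑ d ∈ s.filter (fun d => k * d < N), g (k * d) = ∑ d ∈ s, g (k * d) := by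
    apply Finset.sum_filter_of_ne
    intro x _ hx
    by_contra hcon
    exact hx (hN _ (by omega))
  rw [← h1, ← Finset.sum_image (f := g) hinj]
  apply Finset.sum_le_sum_of_subset_of_nonneg
  · intro x hx
    rw [Finset.mem_image] at hx
    obtain ⟨d, hd, rfl⟩ := hx
    exact Finset.mem_range.2 (Finset.mem_filter.1 hd).2
  · intro i _ _
    exact hg i

/-- Kronecker delta -/
def dl (a d : ℕ) : ℤ := if d = a then 1 else 0

theorem dl_self (a : ℕ) : dl a a = 1 := if_pos rfl

theorem dl_ne {a d : ℕ} (h : d ≠ a) : dl a d = 0 := if_neg h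

theorem dl_nonneg (a d : ℕ) : 0 ≤ dl a d := by
  unfold dl; split_ifs <;> norm_num

theorem sum_dl (a c : ℕ) (h : a < c) : ∑ d ∈ range c, dl a d = 1 := by
  unfold dl
  rw [Finset.sum_ite_eq' (range c) a, if_pos (Finset.mem_range.2 h)]

theorem sum_mul_dl (a c : ℕ) (h : a < c) : ∑ d ∈ range c, (d : ℤ) * dl a d = a := by
  unfold dl
  simp only [mul_ite, mul_one, mul_zero]
  rw [Finset.sum_ite_eq' (range c) a, if_pos (Finset.mem_range.2 h)]

/-- the conclusion of `exponents_coeff` -/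
def Coeffs (K : ℤ[X]) (e : ℕ → ℤ) : Prop :=
  ∀ (s : Multiset ℕ), (∀ m ∈ s, 0 < m) → ∀ G : PowerSeries ℤ,
    (K : PowerSeries ℤ) = (s.map fun m => (1 - PowerSeries.X ^ m : PowerSeries ℤ)).prod * G →
    PowerSeries.coeff 0 G = 1 → ∀ N : ℕ, (∀ j, 0 < j → j < N → PowerSeries.coeff j G = 0) →
    (∀ d, 0 < d → d < N → e d = s.count d) ∧
      ∀ k, 0 < k → N ≤ k → k < 2 * N → e k = s.count k - PowerSeries.coeff k G

theorem arith (K : ℤ[X]) (e : ℕ → ℤ) (hco : Coeffs K e) (s : Multiset ℕ) (hs : ∀ m ∈ s, 0 < m)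
    (P : ℤ[X]) (hPs : (P : PowerSeries ℤ) =
      (s.map fun m => (1 - PowerSeries.X ^ m : PowerSeries ℤ)).prod)
    (m B : ℕ) (hP0 : P.coeff 0 = 1) (hP : ∀ j, 0 < j → j < m → P.coeff j = 0)
    (hH : ∀ j, j < B → (K - P).coeff j = 0) (hB : 0 < B) (hmB : m ≤ B) :
    (∀ d, 0 < d → d < B → e d = s.count d) ∧
      ∀ k, B ≤ k → k < B + m → e k = s.count k - (K - P).coeff k := by
  have hinv : (P : PowerSeries ℤ) * PowerSeries.invOfUnit (P : PowerSeries ℤ) 1 = 1 := by
    apply PowerSeries.mul_invOfUnit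
    rw [← PowerSeries.coeff_zero_eq_constantCoeff_apply, Polynomial.coeff_coe, hP0]
    rfl
  set G : PowerSeries ℤ := (K : PowerSeries ℤ) * PowerSeries.invOfUnit (P : PowerSeries ℤ) 1 with hGdef
  have hK : (K : PowerSeries ℤ) = (P : PowerSeries ℤ) * G := by
    rw [hGdef]
    calc (K : PowerSeries ℤ) = K * ((P : PowerSeries ℤ) *
        PowerSeries.invOfUnit (P : PowerSeries ℤ) 1) := by rw [hinv, mul_one]
      _ = _ := by ring
  have hcq := coeff_quot (K : PowerSeries ℤ) P G m B (by rw [Polynomial.coeff_coe, hP0])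
    (fun j h1 h2 => by rw [Polynomial.coeff_coe]; exact hP j h1 h2) hK
    (fun j hj => by
      have := hH j hj
      rw [← Polynomial.coeff_coe, Polynomial.coe_sub] at this
      exact this) hB
  have hcH : ∀ k, PowerSeries.coeff k ((K : PowerSeries ℤ) - (P : PowerSeries ℤ)) = (K - P).coeff k := by
    intro k
    rw [← Polynomial.coeff_coe, Polynomial.coe_sub]
  have hG0 : PowerSeries.coeff 0 G = 1 := by
    rw [hcq 0 (by omega), hcH, hH 0 hB]
    simp
  have hN : ∀ j, 0 < j → j < B → PowerSeries.coeff j G = 0 := by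
    intro j h1 h2
    rw [hcq j (by omega), hcH, hH j h2, if_neg (by omega)]
    simp
  obtain ⟨r1, r2⟩ := hco s hs G (by rw [← hPs]; exact hK) hG0 B hN
  refine ⟨r1, ?_⟩
  intro k h1 h2
  rw [r2 k (by omega) h1 (by omega), hcq k h2, hcH, if_neg (by omega)]
  ring

theorem nonneg_of_large (e : ℕ → ℤ) (c : ℕ) (hec : ∀ d, c ≤ d → e d = 0)
    (hM : ∀ n, 0 < n → 0 ≤ ∑ k ∈ Icc 1 c, e (k * n)) (hc : 1 ≤ c) (n : ℕ) (hn : 0 < n)
    (h : c ≤ 2 * n) : 0 ≤ e n := by
  have h1 := hM n hn
  rw [Finset.sum_eq_single 1] at h1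
  · rwa [one_mul] at h1
  · intro k hk hk1
    rw [Finset.mem_Icc] at hk
    apply hec
    have : 2 ≤ k := by omega
    nlinarith
  · intro h2
    exact absurd (Finset.mem_Icc.2 ⟨le_refl 1, hc⟩) h2

theorem three_terms (e : ℕ → ℤ) (c : ℕ) (hec : ∀ d, c ≤ d → e d = 0)
    (hM : ∀ n, 0 < n → 0 ≤ ∑ k ∈ Icc 1 c, e (k * n)) (hc : 3 ≤ c) (n : ℕ) (hn : 0 < n)
    (h : c ≤ 4 * n) : 0 ≤ e n + e (2 * n) + e (3 * n) := by
  have h1 := hM n hn
  have h2 : ∑ k ∈ ({1, 2, 3} : Finset ℕ), e (k * n) = ∑ k ∈ Icc 1 c, e (k * n) := by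
    apply Finset.sum_subset
    · intro k hk
      simp only [Finset.mem_insert, Finset.mem_singleton] at hk
      rw [Finset.mem_Icc]
      omega
    · intro k hk hk'
      rw [Finset.mem_Icc] at hk
      simp only [Finset.mem_insert, Finset.mem_singleton] at hk'
      apply hec
      have : 4 ≤ k := by omega
      nlinarith
  rw [← h2, Finset.sum_insert (by decide), Finset.sum_insert (by decide), Finset.sum_singleton] at h1
  rw [one_mul] at h1
  linarith

theorem case1 (m1 m2 m3 m4 m5 c : ℕ) (h0 : 0 < m1) (h12 : m1 ≤ m2) (h23 : m2 ≤ m3)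
    (h34 : m3 ≤ m4) (h45 : m4 ≤ m5) (h35 : m3 + m5 < c) (hne : m4 + m5 ≠ c)
    (hs : m1 + m2 + m3 + m4 + m5 = 2 * c) (H : 2 * m4 < c) (e : ℕ → ℤ)
    (hec : ∀ d, c ≤ d → e d = 0)
    (hM : ∀ n, 0 < n → 0 ≤ ∑ k ∈ Icc 1 c, e (k * n))
    (hco : Coeffs (numer5 m1 m2 m3 m4 m5 c) e) : False := by
  have hPcoe : ((1 - X ^ m1 : ℤ[X]) : PowerSeries ℤ) =
      (({m1} : Multiset ℕ).map fun m => (1 - PowerSeries.X ^ m : PowerSeries ℤ)).prod := by
    simp
  have hH : ∀ k, (numer5 m1 m2 m3 m4 m5 c - (1 - X ^ m1)).coeff k =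
      - dl m2 k - dl m3 k - dl m4 k - dl m5 k + (dl (c - m1) k + dl (c - m2) k + dl (c - m3) k
        + dl (c - m4) k + dl (c - m5) k) - dl c k := by
    intro k
    have : numer5 m1 m2 m3 m4 m5 c - (1 - X ^ m1) = - X ^ m2 - X ^ m3 - X ^ m4 - X ^ m5
      + (X ^ (c - m1) + X ^ (c - m2) + X ^ (c - m3) + X ^ (c - m4) + X ^ (c - m5)) - X ^ c := by
      unfold numer5; ring
    rw [this]
    simp only [coeff_sub, coeff_add, coeff_neg, coeff_X_pow, dl]
  obtain ⟨-, hk⟩ := arith _ e hco {m1} (by intro m hm; rw [Multiset.mem_singleton] at hm; omega)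
    (1 - X ^ m1) hPcoe m1 m2
    (by rw [coeff_sub, coeff_X_pow, if_neg (by omega)]; simp)
    (by
      intro j h1 h2
      rw [coeff_sub, coeff_X_pow, coeff_one, if_neg (by omega), if_neg (by omega)]; rfl)
    (by
      intro j hj
      rw [hH, dl_ne (by omega), dl_ne (by omega), dl_ne (by omega), dl_ne (by omega),
        dl_ne (by omega), dl_ne (by omega), dl_ne (by omega), dl_ne (by omega), dl_ne (by omega),
        dl_ne (by omega)]
      rfl) (by omega) h12
  have h1 := hk (c - m4) (by omega) (by omega)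
  rw [hH, dl_ne (a := m2) (by omega), dl_ne (a := m3) (by omega), dl_ne (a := m4) (by omega),
    dl_ne (a := m5) (by omega), dl_ne (a := c) (by omega), dl_self] at h1
  rw [Multiset.count_eq_zero_of_notMem (by rw [Multiset.mem_singleton]; omega)] at h1
  have h2 := nonneg_of_large e c hec hM (by omega) (c - m4) (by omega) (by omega)
  have h3 := dl_nonneg (c - m1) (c - m4)
  have h4 := dl_nonneg (c - m2) (c - m4)
  have h5 := dl_nonneg (c - m3) (c - m4)
  have h6 := dl_nonneg (c - m5) (c - m4)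
  push_cast at h1
  linarith

theorem data2 (m1 m2 m3 m4 m5 c : ℕ) (h0 : 0 < m1) (h12 : m1 ≤ m2) (h23 : m2 ≤ m3)
    (h34 : m3 ≤ m4) (h45 : m4 ≤ m5) (h35 : m3 + m5 < c) (hne : m4 + m5 ≠ c)
    (hs : m1 + m2 + m3 + m4 + m5 = 2 * c) (H : c ≤ 2 * m4) (e : ℕ → ℤ)
    (hco : Coeffs (numer5 m1 m2 m3 m4 m5 c) e) :
    (∀ d, 0 < d → d + m5 < c → e d = dl m1 d + dl m2 d + dl m3 d) ∧
    (∀ k, c ≤ k + m5 → k + m5 < c + m1 → 2 * k < c → e k = dl (m1 + m2) k + dl (m1 + m3) k
      + dl (m2 + m3) k - dl (m1 + m2 + m3) k - dl (c - m4) k - dl (c - m5) k) := by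
  have hPcoe : (((1 - X ^ m1) * (1 - X ^ m2) * (1 - X ^ m3) : ℤ[X]) : PowerSeries ℤ) =
      ((m1 ::ₘ m2 ::ₘ {m3} : Multiset ℕ).map
        fun m => (1 - PowerSeries.X ^ m : PowerSeries ℤ)).prod := by
    simp [mul_assoc]
  have hP : ∀ k, ((1 - X ^ m1) * (1 - X ^ m2) * (1 - X ^ m3) : ℤ[X]).coeff k =
      dl 0 k - dl m1 k - dl m2 k - dl m3 k + dl (m1 + m2) k + dl (m1 + m3) k + dl (m2 + m3) k
        - dl (m1 + m2 + m3) k := by
    intro k
    have : ((1 - X ^ m1) * (1 - X ^ m2) * (1 - X ^ m3) : ℤ[X]) = X ^ 0 - X ^ m1 - X ^ m2 - X ^ m3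
      + X ^ (m1 + m2) + X ^ (m1 + m3) + X ^ (m2 + m3) - X ^ (m1 + m2 + m3) := by
      ring
    rw [this]
    simp only [coeff_sub, coeff_add, coeff_X_pow, dl]
  have hH : ∀ k, (numer5 m1 m2 m3 m4 m5 c - (1 - X ^ m1) * (1 - X ^ m2) * (1 - X ^ m3)).coeff k =
      - dl m4 k - dl m5 k + (dl (c - m1) k + dl (c - m2) k + dl (c - m3) k
        + dl (c - m4) k + dl (c - m5) k) - dl c k - dl (m1 + m2) k - dl (m1 + m3) k
        - dl (m2 + m3) k + dl (m1 + m2 + m3) k := by
    intro k
    have : numer5 m1 m2 m3 m4 m5 c - (1 - X ^ m1) * (1 - X ^ m2) * (1 - X ^ m3) =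
      - X ^ m4 - X ^ m5
      + (X ^ (c - m1) + X ^ (c - m2) + X ^ (c - m3) + X ^ (c - m4) + X ^ (c - m5)) - X ^ c
      - X ^ (m1 + m2) - X ^ (m1 + m3) - X ^ (m2 + m3) + X ^ (m1 + m2 + m3) := by
      unfold numer5; ring
    rw [this]
    simp only [coeff_sub, coeff_add, coeff_neg, coeff_X_pow, dl]
  obtain ⟨hd, hk⟩ := arith _ e hco (m1 ::ₘ m2 ::ₘ {m3})
    (by
      intro m hm
      simp only [Multiset.mem_cons, Multiset.mem_singleton] at hm
      omega)
    _ hPcoe m1 (c - m5)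
    (by
      rw [hP, dl_self, dl_ne (by omega), dl_ne (by omega), dl_ne (by omega), dl_ne (by omega),
        dl_ne (by omega), dl_ne (by omega), dl_ne (by omega)]
      rfl)
    (by
      intro j h1 h2
      rw [hP, dl_ne (by omega), dl_ne (by omega), dl_ne (by omega), dl_ne (by omega),
        dl_ne (by omega), dl_ne (by omega), dl_ne (by omega), dl_ne (by omega)]
      rfl)
    (by
      intro j hj
      rw [hH, dl_ne (by omega), dl_ne (by omega), dl_ne (by omega), dl_ne (by omega),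
        dl_ne (by omega), dl_ne (by omega), dl_ne (by omega), dl_ne (by omega), dl_ne (by omega),
        dl_ne (by omega), dl_ne (by omega), dl_ne (by omega)]
      rfl) (by omega) (by omega)
  constructor
  · intro d h1 h2
    rw [hd d h1 (by omega), Multiset.count_cons, Multiset.count_cons, Multiset.count_singleton]
    unfold dl
    push_cast
    ring
  · intro k h1 h2 h3
    rw [hk k (by omega) (by omega), hH, dl_ne (a := m4) (by omega), dl_ne (a := m5) (by omega),
      dl_ne (a := c) (by omega), dl_ne (a := c - m1) (by omega), dl_ne (a := c - m2) (by omega),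
      dl_ne (a := c - m3) (by omega), Multiset.count_eq_zero_of_notMem]
    · push_cast
      ring
    · simp only [Multiset.mem_cons, Multiset.mem_singleton]
      omega

theorem pair_le (u : ℕ → ℤ) (hu : ∀ d, 0 ≤ u d) (c : ℕ) (huc : ∀ d, c ≤ d → u d = 0) (x y : ℕ)
    (hxy : x ≠ y) : u x + u y ≤ ∑ d ∈ range c, u d := by
  have h1 : ∑ d ∈ ({x, y} : Finset ℕ), u d = u x + u y := Finset.sum_pair hxy
  have h2 : ∑ d ∈ ({x, y} : Finset ℕ).filter (fun d => d < c), u d =
      ∑ d ∈ ({x, y} : Finset ℕ), u d := by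
    apply Finset.sum_filter_of_ne
    intro d _ hd
    by_contra hcon
    exact hd (huc d (by omega))
  rw [← h1, ← h2]
  apply Finset.sum_le_sum_of_subset_of_nonneg
  · intro d hd
    exact Finset.mem_range.2 (Finset.mem_filter.1 hd).2
  · intro i _ _
    exact hu i

theorem case2A (m1 m2 m3 m4 m5 c : ℕ) (h0 : 0 < m1) (h12 : m1 ≤ m2) (h23 : m2 ≤ m3)
    (h34 : m3 ≤ m4) (h45 : m4 ≤ m5) (h35 : m3 + m5 < c) (hne : m4 + m5 ≠ c)
    (hs : m1 + m2 + m3 + m4 + m5 = 2 * c) (H : c < 2 * m4) (H2 : c ≤ 2 * (m1 + m2)) (e : ℕ → ℤ)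
    (he0 : e 0 = 0) (hec : ∀ d, c ≤ d → e d = 0)
    (hM : ∀ n, 0 < n → 0 ≤ ∑ k ∈ Icc 1 c, e (k * n))
    (hdeg : ∑ d ∈ range c, (d : ℤ) * e d = c) (hthree : ∑ d ∈ range c, e d = 3)
    (hco : Coeffs (numer5 m1 m2 m3 m4 m5 c) e) : False := by
  obtain ⟨b4, hb4⟩ : ∃ b, b + m4 = c := ⟨c - m4, by omega⟩
  obtain ⟨b5, hb5⟩ : ∃ b, b + m5 = c := ⟨c - m5, by omega⟩
  obtain ⟨hd1, hd2⟩ := data2 m1 m2 m3 m4 m5 c h0 h12 h23 h34 h45 h35 hne hs (by omega) e hco
  have hcm4 : c - m4 = b4 := by omega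
  have hcm5 : c - m5 = b5 := by omega
  rw [hcm4, hcm5] at hd2
  have hf : ∀ d, 2 * d < c → e d = dl m1 d + dl m2 d + dl m3 d - dl b5 d - dl b4 d := by
    intro d hd
    rcases Nat.eq_zero_or_pos d with h | h
    · rw [h, he0, dl_ne (by omega), dl_ne (by omega), dl_ne (by omega), dl_ne (by omega),
        dl_ne (by omega)]
      rfl
    · by_cases hdb : d + m5 < c
      · rw [hd1 d h hdb, dl_ne (a := b5) (by omega), dl_ne (a := b4) (by omega)]
        ring
      · rw [hd2 d (by omega) (by omega) hd, dl_ne (a := m1 + m2) (by omega),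
          dl_ne (a := m1 + m3) (by omega), dl_ne (a := m2 + m3) (by omega),
          dl_ne (a := m1 + m2 + m3) (by omega), dl_ne (a := m1) (by omega),
          dl_ne (a := m2) (by omega), dl_ne (a := m3) (by omega)]
        ring
  have hu : ∀ d : ℕ, 0 ≤ (2 * (d : ℤ) - c) * (e d - (dl m1 d + dl m2 d + dl m3 d - dl b5 d - dl b4 d)) := by
    intro d
    by_cases hd : 2 * d < c
    · rw [hf d hd]; simp
    · rw [dl_ne (a := m1) (by omega),
          dl_ne (a := m2) (by omega), dl_ne (a := m3) (by omega), dl_ne (a := b5) (by omega),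
          dl_ne (a := b4) (by omega)]
      have h1 : 0 ≤ e d := nonneg_of_large e c hec hM (by omega) d (by omega) (by omega)
      have h2 : (0 : ℤ) ≤ 2 * (d : ℤ) - c := by
        have : (c : ℤ) ≤ 2 * (d : ℤ) := by exact_mod_cast (by omega : c ≤ 2 * d)
        linarith
      have := mul_nonneg h2 h1
      simpa using this
  have hsum : ∑ d ∈ range c, (2 * (d : ℤ) - c) *
      (e d - (dl m1 d + dl m2 d + dl m3 d - dl b5 d - dl b4 d)) = 0 := by
    have h1 : ∑ d ∈ range c, (e d - (dl m1 d + dl m2 d + dl m3 d - dl b5 d - dl b4 d)) = 2 := by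
      simp only [Finset.sum_sub_distrib, Finset.sum_add_distrib]
      rw [sum_dl m1 c (by omega), sum_dl m2 c (by omega), sum_dl m3 c (by omega),
        sum_dl b5 c (by omega), sum_dl b4 c (by omega), hthree]
      norm_num
    have h2 : ∑ d ∈ range c, (d : ℤ) * (e d - (dl m1 d + dl m2 d + dl m3 d - dl b5 d - dl b4 d))
        = c := by
      simp only [mul_sub, mul_add, Finset.sum_sub_distrib, Finset.sum_add_distrib]
      rw [sum_mul_dl m1 c (by omega), sum_mul_dl m2 c (by omega), sum_mul_dl m3 c (by omega),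
        sum_mul_dl b5 c (by omega), sum_mul_dl b4 c (by omega), hdeg]
      push_cast [← hb4] at *
      have : (m1 : ℤ) + m2 + m3 + m4 + m5 = 2 * (b4 + m4) := by exact_mod_cast hs
      have h5 : (b5 : ℤ) + m5 = b4 + m4 := by exact_mod_cast hb5
      linarith
    have h3 : ∀ d : ℕ, (2 * (d : ℤ) - c) *
      (e d - (dl m1 d + dl m2 d + dl m3 d - dl b5 d - dl b4 d)) =
        2 * ((d : ℤ) * (e d - (dl m1 d + dl m2 d + dl m3 d - dl b5 d - dl b4 d)))
        - c * (e d - (dl m1 d + dl m2 d + dl m3 d - dl b5 d - dl b4 d)) := by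
      intro d; ring
    simp only [h3]
    rw [Finset.sum_sub_distrib, ← Finset.mul_sum, ← Finset.mul_sum, h1, h2]
    ring
  have hz := (Finset.sum_eq_zero_iff_of_nonneg (fun d _ => hu d)).1 hsum
  have hb4neg : e b4 < 0 := by
    rw [hf b4 (by omega), dl_ne (a := m1) (by omega),
          dl_ne (a := m2) (by omega), dl_ne (a := m3) (by omega), dl_self]
    have := dl_nonneg b5 b4
    linarith
  obtain ⟨k, hk, hk2⟩ := exists_mult e c b4 (by omega) (hM b4 (by omega)) hb4neg
  have hD : 2 * b4 ≤ k * b4 := Nat.mul_le_mul_right b4 hk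
  set D := k * b4 with hDdef
  have hDc : D < c := by
    by_contra hcon
    rw [hec D (by omega)] at hk2
    exact lt_irrefl _ hk2
  have h3 : ¬ 2 * D < c := by
    intro h
    rw [hf D h, dl_ne (a := m1) (by omega),
          dl_ne (a := m2) (by omega), dl_ne (a := m3) (by omega)] at hk2
    have h1 := dl_nonneg b5 D
    have h2 := dl_nonneg b4 D
    linarith
  have h4 : ¬ c < 2 * D := by
    intro h
    have h5 := hz D (Finset.mem_range.2 hDc)
    rw [dl_ne (a := m1) (by omega),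
          dl_ne (a := m2) (by omega), dl_ne (a := m3) (by omega), dl_ne (a := b5) (by omega),
          dl_ne (a := b4) (by omega)] at h5
    have h6 : (0 : ℤ) < 2 * (D : ℤ) - c := by
      have : (c : ℤ) < 2 * (D : ℤ) := by exact_mod_cast h
      linarith
    have := mul_pos h6 hk2
    simp only [add_zero, sub_zero] at h5
    linarith
  omega

theorem case2B (m1 m2 m3 m4 m5 c : ℕ) (h0 : 0 < m1) (h12 : m1 ≤ m2) (h23 : m2 ≤ m3)
    (h34 : m3 ≤ m4) (h45 : m4 ≤ m5) (h35 : m3 + m5 < c) (hne : m4 + m5 ≠ c)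
    (hs : m1 + m2 + m3 + m4 + m5 = 2 * c) (H : c = 2 * m4) (e : ℕ → ℤ)
    (he0 : e 0 = 0) (hec : ∀ d, c ≤ d → e d = 0)
    (hM : ∀ n, 0 < n → 0 ≤ ∑ k ∈ Icc 1 c, e (k * n))
    (hdeg : ∑ d ∈ range c, (d : ℤ) * e d = c) (hthree : ∑ d ∈ range c, e d = 3)
    (hco : Coeffs (numer5 m1 m2 m3 m4 m5 c) e) : False := by
  obtain ⟨b5, hb5⟩ : ∃ b, b + m5 = c := ⟨c - m5, by omega⟩
  obtain ⟨hd1, hd2⟩ := data2 m1 m2 m3 m4 m5 c h0 h12 h23 h34 h45 h35 hne hs (by omega) e hco
  have hcm4 : c - m4 = m4 := by omega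
  have hcm5 : c - m5 = b5 := by omega
  rw [hcm4, hcm5] at hd2
  have hf : ∀ d, 2 * d < c → e d = dl m1 d + dl m2 d + dl m3 d - dl b5 d := by
    intro d hd
    rcases Nat.eq_zero_or_pos d with h | h
    · rw [h, he0, dl_ne (by omega), dl_ne (by omega), dl_ne (by omega), dl_ne (by omega)]
      rfl
    · by_cases hdb : d + m5 < c
      · rw [hd1 d h hdb, dl_ne (a := b5) (by omega)]
        ring
      · rw [hd2 d (by omega) (by omega) hd, dl_ne (a := m1 + m2) (by omega),
          dl_ne (a := m1 + m3) (by omega), dl_ne (a := m2 + m3) (by omega),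
          dl_ne (a := m1 + m2 + m3) (by omega), dl_ne (a := m1) (by omega),
          dl_ne (a := m2) (by omega), dl_ne (a := m3) (by omega), dl_ne (a := m4) (by omega)]
        ring
  have hu : ∀ d : ℕ, 0 ≤ (2 * (d : ℤ) - c) * (e d - (dl m1 d + dl m2 d + dl m3 d - dl b5 d)) := by
    intro d
    by_cases hd : 2 * d < c
    · rw [hf d hd]; simp
    · rw [dl_ne (a := m1) (by omega),
          dl_ne (a := m2) (by omega), dl_ne (a := m3) (by omega), dl_ne (a := b5) (by omega)]
      have h1 : 0 ≤ e d := nonneg_of_large e c hec hM (by omega) d (by omega) (by omega)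
      have h2 : (0 : ℤ) ≤ 2 * (d : ℤ) - c := by
        have : (c : ℤ) ≤ 2 * (d : ℤ) := by exact_mod_cast (by omega : c ≤ 2 * d)
        linarith
      have := mul_nonneg h2 h1
      simpa using this
  have hsum : ∑ d ∈ range c, (2 * (d : ℤ) - c) *
      (e d - (dl m1 d + dl m2 d + dl m3 d - dl b5 d)) = 0 := by
    have h1 : ∑ d ∈ range c, (e d - (dl m1 d + dl m2 d + dl m3 d - dl b5 d)) = 1 := by
      simp only [Finset.sum_sub_distrib, Finset.sum_add_distrib]
      rw [sum_dl m1 c (by omega), sum_dl m2 c (by omega), sum_dl m3 c (by omega),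
        sum_dl b5 c (by omega), hthree]
      norm_num
    have h2 : ∑ d ∈ range c, (d : ℤ) * (e d - (dl m1 d + dl m2 d + dl m3 d - dl b5 d))
        = m4 := by
      simp only [mul_sub, mul_add, Finset.sum_sub_distrib, Finset.sum_add_distrib]
      rw [sum_mul_dl m1 c (by omega), sum_mul_dl m2 c (by omega), sum_mul_dl m3 c (by omega),
        sum_mul_dl b5 c (by omega), hdeg]
      have h6 : (m1 : ℤ) + m2 + m3 + m4 + m5 = 2 * c := by exact_mod_cast hs
      have h5 : (b5 : ℤ) + m5 = c := by exact_mod_cast hb5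
      have h7 : (c : ℤ) = 2 * m4 := by exact_mod_cast H
      linarith
    have h3 : ∀ d : ℕ, (2 * (d : ℤ) - c) *
      (e d - (dl m1 d + dl m2 d + dl m3 d - dl b5 d)) =
        2 * ((d : ℤ) * (e d - (dl m1 d + dl m2 d + dl m3 d - dl b5 d)))
        - c * (e d - (dl m1 d + dl m2 d + dl m3 d - dl b5 d)) := by
      intro d; ring
    simp only [h3]
    rw [Finset.sum_sub_distrib, ← Finset.mul_sum, ← Finset.mul_sum, h1, h2]
    have h7 : (c : ℤ) = 2 * m4 := by exact_mod_cast H
    rw [h7]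
    ring
  have hz := (Finset.sum_eq_zero_iff_of_nonneg (fun d _ => hu d)).1 hsum
  have hb5neg : e b5 < 0 := by
    rw [hf b5 (by omega), dl_ne (a := m1) (by omega),
          dl_ne (a := m2) (by omega), dl_ne (a := m3) (by omega), dl_self]
    norm_num
  obtain ⟨k, hk, hk2⟩ := exists_mult e c b5 (by omega) (hM b5 (by omega)) hb5neg
  have hD : 2 * b5 ≤ k * b5 := Nat.mul_le_mul_right b5 hk
  set D := k * b5 with hDdef
  have hDc : D < c := by
    by_contra hcon
    rw [hec D (by omega)] at hk2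
    exact lt_irrefl _ hk2
  have h3 : ¬ 2 * D < c := by
    intro h
    rw [hf D h, dl_ne (a := m1) (by omega),
          dl_ne (a := m2) (by omega), dl_ne (a := m3) (by omega)] at hk2
    have h1 := dl_nonneg b5 D
    linarith
  have h4 : ¬ c < 2 * D := by
    intro h
    have h5 := hz D (Finset.mem_range.2 hDc)
    rw [dl_ne (a := m1) (by omega),
          dl_ne (a := m2) (by omega), dl_ne (a := m3) (by omega), dl_ne (a := b5) (by omega)] at h5
    have h6 : (0 : ℤ) < 2 * (D : ℤ) - c := by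
      have : (c : ℤ) < 2 * (D : ℤ) := by exact_mod_cast h
      linarith
    have := mul_pos h6 hk2
    simp only [add_zero, sub_zero] at h5
    linarith
  omega

theorem case2C (m1 m2 m3 m4 m5 c : ℕ) (h0 : 0 < m1) (h12 : m1 ≤ m2) (h23 : m2 ≤ m3)
    (h34 : m3 ≤ m4) (h45 : m4 ≤ m5) (h35 : m3 + m5 < c) (hne : m4 + m5 ≠ c)
    (hs : m1 + m2 + m3 + m4 + m5 = 2 * c) (H : c < 2 * m4) (H2 : 2 * (m1 + m2) < c)
    (H3 : c ≤ 2 * (m1 + m3)) (H4 : 4 * m5 ≤ 3 * c) (e : ℕ → ℤ)
    (he0 : e 0 = 0) (hec : ∀ d, c ≤ d → e d = 0)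
    (hM : ∀ n, 0 < n → 0 ≤ ∑ k ∈ Icc 1 c, e (k * n))
    (hdeg : ∑ d ∈ range c, (d : ℤ) * e d = c) (hthree : ∑ d ∈ range c, e d = 3)
    (hco : Coeffs (numer5 m1 m2 m3 m4 m5 c) e) : False := by
  obtain ⟨b4, hb4⟩ : ∃ b, b + m4 = c := ⟨c - m4, by omega⟩
  obtain ⟨b5, hb5⟩ : ∃ b, b + m5 = c := ⟨c - m5, by omega⟩
  obtain ⟨hd1, hd2⟩ := data2 m1 m2 m3 m4 m5 c h0 h12 h23 h34 h45 h35 hne hs (by omega) e hco
  have hcm4 : c - m4 = b4 := by omega
  have hcm5 : c - m5 = b5 := by omega
  rw [hcm4, hcm5] at hd2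
  set f : ℕ → ℤ := fun d => dl m1 d + dl m2 d + dl m3 d + dl (m1 + m2) d - dl b5 d - dl b4 d
    with hfdef
  have hf : ∀ d, 2 * d < c → e d = f d := by
    intro d hd
    show e d = dl m1 d + dl m2 d + dl m3 d + dl (m1 + m2) d - dl b5 d - dl b4 d
    rcases Nat.eq_zero_or_pos d with h | h
    · rw [h, he0, dl_ne (by omega), dl_ne (by omega), dl_ne (by omega), dl_ne (by omega),
        dl_ne (by omega), dl_ne (by omega)]
      rfl
    · by_cases hdb : d + m5 < c
      · rw [hd1 d h hdb, dl_ne (a := b5) (by omega), dl_ne (a := b4) (by omega),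
          dl_ne (a := m1 + m2) (by omega)]
        ring
      · rw [hd2 d (by omega) (by omega) hd, 
          dl_ne (a := m1 + m3) (by omega), dl_ne (a := m2 + m3) (by omega),
          dl_ne (a := m1 + m2 + m3) (by omega), dl_ne (a := m1) (by omega),
          dl_ne (a := m2) (by omega), dl_ne (a := m3) (by omega)]
        ring
  have hf0 : ∀ d, c ≤ 2 * d → f d = 0 := by
    intro d hd
    show dl m1 d + dl m2 d + dl m3 d + dl (m1 + m2) d - dl b5 d - dl b4 d = 0
    rw [dl_ne (a := m1) (by omega),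
          dl_ne (a := m2) (by omega), dl_ne (a := m3) (by omega), dl_ne (a := m1 + m2) (by omega),
          dl_ne (a := b5) (by omega), dl_ne (a := b4) (by omega)]
    norm_num
  set u : ℕ → ℤ := fun d => e d - f d with hudef
  have hu1 : ∀ d, 2 * d < c → u d = 0 := by
    intro d hd
    show e d - f d = 0
    rw [hf d hd]; ring
  have hu2 : ∀ d, c ≤ 2 * d → u d = e d := by
    intro d hd
    show e d - f d = e d
    rw [hf0 d hd]; ring
  have hu : ∀ d : ℕ, 0 ≤ u d := by
    intro d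
    by_cases hd : 2 * d < c
    · rw [hu1 d hd]
    · rw [hu2 d (by omega)]
      exact nonneg_of_large e c hec hM (by omega) d (by omega) (by omega)
  have huc : ∀ d, c ≤ d → u d = 0 := by
    intro d hd
    rw [hu2 d (by omega), hec d hd]
  have h1 : ∑ d ∈ range c, u d = 1 := by
    simp only [hudef, hfdef, Finset.sum_sub_distrib, Finset.sum_add_distrib]
    rw [sum_dl m1 c (by omega), sum_dl m2 c (by omega), sum_dl m3 c (by omega),
      sum_dl b5 c (by omega), sum_dl b4 c (by omega), sum_dl (m1 + m2) c (by omega), hthree]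
    norm_num
  have h2 : ∑ d ∈ range c, (d : ℤ) * u d = c - m1 - m2 := by
    simp only [hudef, hfdef, mul_sub, mul_add, Finset.sum_sub_distrib, Finset.sum_add_distrib]
    rw [sum_mul_dl m1 c (by omega), sum_mul_dl m2 c (by omega), sum_mul_dl m3 c (by omega),
      sum_mul_dl b5 c (by omega), sum_mul_dl b4 c (by omega),
      sum_mul_dl (m1 + m2) c (by omega), hdeg]
    have h6 : (m1 : ℤ) + m2 + m3 + m4 + m5 = 2 * c := by exact_mod_cast hs
    have h5 : (b5 : ℤ) + m5 = c := by exact_mod_cast hb5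
    have h4 : (b4 : ℤ) + m4 = c := by exact_mod_cast hb4
    push_cast
    linarith
  have t5 := three_terms e c hec hM (by omega) b5 (by omega) (by omega)
  have t4 := three_terms e c hec hM (by omega) b4 (by omega) (by omega)
  rw [← hu2 (2 * b5) (by omega), ← hu2 (3 * b5) (by omega)] at t5
  rw [← hu2 (2 * b4) (by omega), ← hu2 (3 * b4) (by omega)] at t4
  have hfb5 : e b5 = - 1 - dl b4 b5 := by
    rw [hf b5 (by omega)]
    show dl m1 b5 + dl m2 b5 + dl m3 b5 + dl (m1 + m2) b5 - dl b5 b5 - dl b4 b5 = _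
    rw [dl_ne (a := m1) (by omega),
          dl_ne (a := m2) (by omega), dl_ne (a := m3) (by omega), dl_ne (a := m1 + m2) (by omega),
          dl_self]
    ring
  have hfb4 : e b4 = - 1 - dl b5 b4 := by
    rw [hf b4 (by omega)]
    show dl m1 b4 + dl m2 b4 + dl m3 b4 + dl (m1 + m2) b4 - dl b5 b4 - dl b4 b4 = _
    rw [dl_ne (a := m1) (by omega),
          dl_ne (a := m2) (by omega), dl_ne (a := m3) (by omega), dl_ne (a := m1 + m2) (by omega),
          dl_self]
    ring
  rw [hfb5] at t5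
  rw [hfb4] at t4
  have hpair := pair_le u hu c huc
  rw [h1] at hpair
  by_cases heq : b4 = b5
  · have h3 := hpair (2 * b5) (3 * b5) (by omega)
    rw [heq, dl_self] at t5
    linarith
  · rw [dl_ne (by omega)] at t5 t4
    have a1 := hu (2 * b5)
    have a2 := hu (3 * b5)
    have a3 := hu (2 * b4)
    have a4 := hu (3 * b4)
    have hcase : 3 * b5 = 2 * b4 := by
      by_contra hcon
      have q1 := hpair (2 * b5) (2 * b4) (by omega)
      have q2 := hpair (2 * b5) (3 * b4) (by omega)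
      have q3 := hpair (3 * b5) (3 * b4) (by omega)
      have q4 := hpair (3 * b5) (2 * b4) hcon
      omega
    have q1 := hpair (2 * b5) (2 * b4) (by omega)
    have q2 := hpair (2 * b5) (3 * b4) (by omega)
    have q3 := hpair (3 * b5) (3 * b4) (by omega)
    have q5 := hpair (2 * b5) (3 * b5) (by omega)
    have hcase' : u (2 * b4) = u (3 * b5) := by rw [hcase]
    have hone : u (3 * b5) = 1 := by
      omega
    have hzero : ∀ d, d ≠ 3 * b5 → u d = 0 := by
      intro d hd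
      have r1 := hpair d (3 * b5) hd
      have r2 := hu d
      omega
    have hlt : 3 * b5 < c := by
      by_contra hcon
      rw [huc _ (by omega)] at hone
      exact absurd hone (by norm_num)
    rw [Finset.sum_eq_single (3 * b5) (fun d _ hd => by rw [hzero d hd, mul_zero])
      (fun h => absurd (Finset.mem_range.2 hlt) h), hone] at h2
    push_cast at h2
    omega

theorem case2D (m1 m2 m3 m4 m5 c : ℕ) (h0 : 0 < m1) (h12 : m1 ≤ m2) (h23 : m2 ≤ m3)
    (h34 : m3 ≤ m4) (h45 : m4 ≤ m5) (h35 : m3 + m5 < c) (hne : m4 + m5 ≠ c)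
    (hs : m1 + m2 + m3 + m4 + m5 = 2 * c) (H : c < 2 * m4)
    (H3 : 2 * (m1 + m3) < c) (H4 : 4 * m5 ≤ 3 * c) (e : ℕ → ℤ)
    (he0 : e 0 = 0) (hec : ∀ d, c ≤ d → e d = 0)
    (hM : ∀ n, 0 < n → 0 ≤ ∑ k ∈ Icc 1 c, e (k * n))
    (hdeg : ∑ d ∈ range c, (d : ℤ) * e d = c)
    (hco : Coeffs (numer5 m1 m2 m3 m4 m5 c) e) : False := by
  obtain ⟨b4, hb4⟩ : ∃ b, b + m4 = c := ⟨c - m4, by omega⟩
  obtain ⟨b5, hb5⟩ : ∃ b, b + m5 = c := ⟨c - m5, by omega⟩
  obtain ⟨hd1, hd2⟩ := data2 m1 m2 m3 m4 m5 c h0 h12 h23 h34 h45 h35 hne hs (by omega) e hco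
  have hcm4 : c - m4 = b4 := by omega
  have hcm5 : c - m5 = b5 := by omega
  rw [hcm4, hcm5] at hd2
  set u : ℕ → ℤ := fun d => if 2 * d < c then 0 else e d with hudef
  set P : ℕ → ℤ := fun d => if 2 * d < c then max (e d) 0 else 0 with hPdef
  set N : ℕ → ℤ := fun d => if 2 * d < c then max (- e d) 0 else 0 with hNdef
  have hu1 : ∀ d, 2 * d < c → u d = 0 := fun d hd => if_pos hd
  have hu2 : ∀ d, c ≤ 2 * d → u d = e d := fun d hd => if_neg (by omega)
  have hu : ∀ d : ℕ, 0 ≤ u d := by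
    intro d
    by_cases hd : 2 * d < c
    · rw [hu1 d hd]
    · rw [hu2 d (by omega)]
      exact nonneg_of_large e c hec hM (by omega) d (by omega) (by omega)
  have huc : ∀ d, c ≤ d → u d = 0 := by
    intro d hd
    rw [hu2 d (by omega), hec d hd]
  have hP1 : ∀ d, 2 * d < c → P d = max (e d) 0 := fun d hd => if_pos hd
  have hP2 : ∀ d, c ≤ 2 * d → P d = 0 := fun d hd => if_neg (by omega)
  have hN1 : ∀ d, 2 * d < c → N d = max (- e d) 0 := fun d hd => if_pos hd
  have hN2 : ∀ d, c ≤ 2 * d → N d = 0 := fun d hd => if_neg (by omega)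
  have hdec : ∀ d, e d = P d - N d + u d := by
    intro d
    by_cases hd : 2 * d < c
    · rw [hP1 d hd, hN1 d hd, hu1 d hd]
      rcases le_total 0 (e d) with h | h
      · rw [max_eq_left h, max_eq_right (by linarith)]; ring
      · rw [max_eq_right h, max_eq_left (by linarith)]; ring
    · rw [hP2 d (by omega), hN2 d (by omega), hu2 d (by omega)]; ring
  have hPlow : ∀ d, dl m1 d + dl m2 d + dl m3 d + dl (m1 + m2) d + dl (m1 + m3) d ≤ P d := by
    intro d
    by_cases hd : 2 * d < c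
    · rw [hP1 d hd]
      rcases Nat.eq_zero_or_pos d with h | h
      · rw [h, dl_ne (by omega), dl_ne (by omega), dl_ne (by omega), dl_ne (by omega),
          dl_ne (by omega)]
        exact le_max_right _ _
      · by_cases hdb : d + m5 < c
        · rw [hd1 d h hdb, dl_ne (a := m1 + m2) (by omega), dl_ne (a := m1 + m3) (by omega),
            add_zero, add_zero]
          exact le_max_left _ _
        · rw [dl_ne (a := m1) (by omega),
            dl_ne (a := m2) (by omega), dl_ne (a := m3) (by omega)]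
          by_cases hdm : d = m1 + m2 ∨ d = m1 + m3
          · refine le_trans ?_ (le_max_left _ _)
            rw [hd2 d (by omega) (by omega) hd, dl_ne (a := b4) (by omega),
              dl_ne (a := b5) (by omega), dl_ne (a := m1 + m2 + m3) (by omega)]
            have := dl_nonneg (m2 + m3) d
            linarith
          · rw [dl_ne (a := m1 + m2) (by omega), dl_ne (a := m1 + m3) (by omega)]
            exact le_max_right _ _
    · rw [hP2 d (by omega), dl_ne (a := m1) (by omega), dl_ne (a := m2) (by omega),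
        dl_ne (a := m3) (by omega), dl_ne (a := m1 + m2) (by omega),
        dl_ne (a := m1 + m3) (by omega)]
      norm_num
  have hNlow : ∀ d, dl b4 d + dl b5 d ≤ N d := by
    intro d
    by_cases hdm : d = b4 ∨ d = b5
    · rw [hN1 d (by omega)]
      refine le_trans ?_ (le_max_left _ _)
      rw [hd2 d (by omega) (by omega) (by omega), dl_ne (a := m1 + m2) (by omega),
        dl_ne (a := m1 + m3) (by omega), dl_ne (a := m2 + m3) (by omega),
        dl_ne (a := m1 + m2 + m3) (by omega)]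
      linarith
    · rw [dl_ne (a := b4) (by omega), dl_ne (a := b5) (by omega), add_zero]
      by_cases hd : 2 * d < c
      · rw [hN1 d hd]; exact le_max_right _ _
      · rw [hN2 d (by omega)]
  have hNup : ∀ d, N d ≤ u (2 * d) + u (3 * d) := by
    intro d
    have hu2d := hu (2 * d)
    have hu3d := hu (3 * d)
    by_cases hd : 2 * d < c
    · rw [hN1 d hd]
      apply max_le _ (by linarith)
      rcases Nat.eq_zero_or_pos d with h | h
      · rw [h, he0, neg_zero]
        exact add_nonneg (hu _) (hu _)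
      · by_cases hdb : d + m5 < c
        · rw [hd1 d h hdb]
          have r1 := dl_nonneg m1 d
          have r2 := dl_nonneg m2 d
          have r3 := dl_nonneg m3 d
          linarith
        · rw [hu2 (2 * d) (by omega), hu2 (3 * d) (by omega)]
          have := three_terms e c hec hM (by omega) d (by omega) (by omega)
          linarith
    · rw [hN2 d (by omega)]
      linarith
  have hsumP : ((m1 : ℤ) + m2 + m3 + (m1 + m2) + (m1 + m3)) ≤ ∑ d ∈ range c, (d : ℤ) * P d := by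
    have h1 : ∑ d ∈ range c, (d : ℤ) * (dl m1 d + dl m2 d + dl m3 d + dl (m1 + m2) d
        + dl (m1 + m3) d) ≤ ∑ d ∈ range c, (d : ℤ) * P d :=
      Finset.sum_le_sum fun d _ => mul_le_mul_of_nonneg_left (hPlow d) (by positivity)
    simp only [mul_add, Finset.sum_add_distrib] at h1
    rw [sum_mul_dl m1 c (by omega), sum_mul_dl m2 c (by omega), sum_mul_dl m3 c (by omega),
      sum_mul_dl (m1 + m2) c (by omega), sum_mul_dl (m1 + m3) c (by omega)] at h1
    push_cast at h1
    exact h1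
  have hsumN : ((b4 : ℤ) + b5) ≤ ∑ d ∈ range c, (d : ℤ) * N d := by
    have h1 : ∑ d ∈ range c, (d : ℤ) * (dl b4 d + dl b5 d) ≤ ∑ d ∈ range c, (d : ℤ) * N d :=
      Finset.sum_le_sum fun d _ => mul_le_mul_of_nonneg_left (hNlow d) (by positivity)
    simp only [mul_add, Finset.sum_add_distrib] at h1
    rw [sum_mul_dl b4 c (by omega), sum_mul_dl b5 c (by omega)] at h1
    exact h1
  have hg : ∀ d : ℕ, 0 ≤ (d : ℤ) * u d := fun d => mul_nonneg (by positivity) (hu d)
  have hgc : ∀ D : ℕ, c ≤ D → (D : ℤ) * u D = 0 := fun D hD => by rw [huc D hD, mul_zero]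
  have s2 := sum_mult_le (fun d => (d : ℤ) * u d) hg 2 c (by norm_num) (range c) hgc
  have s3 := sum_mult_le (fun d => (d : ℤ) * u d) hg 3 c (by norm_num) (range c) hgc
  have hW : ∑ d ∈ range c, (d : ℤ) * N d ≤
      ∑ d ∈ range c, (d : ℤ) * u (2 * d) + ∑ d ∈ range c, (d : ℤ) * u (3 * d) := by
    rw [← Finset.sum_add_distrib]
    apply Finset.sum_le_sum
    intro d _
    rw [← mul_add]
    exact mul_le_mul_of_nonneg_left (hNup d) (by positivity)
  have e2 : ∑ d ∈ range c, ((2 * d : ℕ) : ℤ) * u (2 * d) =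
      2 * ∑ d ∈ range c, (d : ℤ) * u (2 * d) := by
    rw [Finset.mul_sum]
    apply Finset.sum_congr rfl
    intro d _
    push_cast; ring
  have e3 : ∑ d ∈ range c, ((3 * d : ℕ) : ℤ) * u (3 * d) =
      3 * ∑ d ∈ range c, (d : ℤ) * u (3 * d) := by
    rw [Finset.mul_sum]
    apply Finset.sum_congr rfl
    intro d _
    push_cast; ring
  rw [e2] at s2
  rw [e3] at s3
  have htot : ∑ d ∈ range c, (d : ℤ) * P d - ∑ d ∈ range c, (d : ℤ) * N d +
      ∑ d ∈ range c, (d : ℤ) * u d = c := by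
    rw [← hdeg, ← Finset.sum_sub_distrib, ← Finset.sum_add_distrib]
    apply Finset.sum_congr rfl
    intro d _
    rw [hdec d]; ring
  have z1 : (m1 : ℤ) + m2 + m3 = b4 + b5 := by
    exact_mod_cast (by omega : m1 + m2 + m3 = b4 + b5)
  have z2 : (c : ℤ) ≤ 2 * (b4 + b5) := by
    exact_mod_cast (by omega : c ≤ 2 * (b4 + b5))
  have z3 : (0 : ℤ) < c := by exact_mod_cast (by omega : 0 < c)
  have z4 : (0 : ℤ) < m1 := by exact_mod_cast h0
  linarith

/-- the numerator is not a product of cyclotomic polynomials (statement for exponents) -/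
theorem core (m1 m2 m3 m4 m5 c : ℕ) (h0 : 0 < m1) (h12 : m1 ≤ m2) (h23 : m2 ≤ m3)
    (h34 : m3 ≤ m4) (h45 : m4 ≤ m5) (h35 : m3 + m5 < c) (hne : m4 + m5 ≠ c)
    (hs : m1 + m2 + m3 + m4 + m5 = 2 * c)
    (H : 2 * m4 < c ∨ c ≤ 2 * (m1 + m2) ∨ 4 * m5 ≤ 3 * c) (e : ℕ → ℤ)
    (he0 : e 0 = 0) (hec : ∀ d, c ≤ d → e d = 0)
    (hM : ∀ n, 0 < n → 0 ≤ ∑ k ∈ Icc 1 c, e (k * n))
    (hdeg : ∑ d ∈ range c, (d : ℤ) * e d = c) (hthree : ∑ d ∈ range c, e d = 3)
    (hco : Coeffs (numer5 m1 m2 m3 m4 m5 c) e) : False := by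
  rcases lt_trichotomy (2 * m4) c with h | h | h
  · exact case1 m1 m2 m3 m4 m5 c h0 h12 h23 h34 h45 h35 hne hs h e hec hM hco
  · exact case2B m1 m2 m3 m4 m5 c h0 h12 h23 h34 h45 h35 hne hs h.symm e he0 hec hM hdeg hthree hco
  · by_cases h2 : c ≤ 2 * (m1 + m2)
    · exact case2A m1 m2 m3 m4 m5 c h0 h12 h23 h34 h45 h35 hne hs h h2 e he0 hec hM hdeg hthree hco
    · by_cases h3 : c ≤ 2 * (m1 + m3)
      · exact case2C m1 m2 m3 m4 m5 c h0 h12 h23 h34 h45 h35 hne hs h (by omega) h3 (by omega) e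
          he0 hec hM hdeg hthree hco
      · exact case2D m1 m2 m3 m4 m5 c h0 h12 h23 h34 h45 h35 hne hs h (by omega) (by omega) e
          he0 hec hM hdeg hco

end Pool.Agent.W2helper94.CY
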