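import Mathlib

set_option autoImplicit false

/-!
# Bresinsky's semigroups: definitions

Eight positive integers `a_ij` determine four integers `n1, …, n4`. If these are coprime, the
numerical semigroup generated by them is symmetric; by a theorem of Bresinsky (1975) these are all
the symmetric numerical semigroups of embedding dimension four which are not complete intersections.
-/

namespace Pool.Agent.W2helper94.CY

open Polynomial Finset

/-- `1 - ∑ X ^ m_i + ∑ X ^ (c - m_i) - X ^ c` -/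
noncomputable def numer5 (m1 m2 m3 m4 m5 c : ℕ) : ℤ[X] :=
  1 - (X ^ m1 + X ^ m2 + X ^ m3 + X ^ m4 + X ^ m5)
    + (X ^ (c - m1) + X ^ (c - m2) + X ^ (c - m3) + X ^ (c - m4) + X ^ (c - m5)) - X ^ c

/-- the eight positive parameters -/
structure Par where
  a21 : ℕ
  a31 : ℕ
  a32 : ℕ
  a42 : ℕ
  a13 : ℕ
  a43 : ℕ
  a14 : ℕ
  a24 : ℕ
  h21 : 0 < a21
  h31 : 0 < a31
  h32 : 0 < a32
  h42 : 0 < a42
  h13 : 0 < a13
  h43 : 0 < a43
  h14 : 0 < a14
  h24 : 0 < a24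

namespace Par

variable (p : Par)

def a1 : ℕ := p.a21 + p.a31
def a2 : ℕ := p.a32 + p.a42
def a3 : ℕ := p.a13 + p.a43
def a4 : ℕ := p.a14 + p.a24

/-- the four generators -/
def n1 : ℕ := p.a2 * p.a3 * p.a14 + p.a32 * p.a13 * p.a24
def n2 : ℕ := p.a3 * p.a4 * p.a21 + p.a31 * p.a43 * p.a24
def n3 : ℕ := p.a1 * p.a4 * p.a32 + p.a14 * p.a42 * p.a31
def n4 : ℕ := p.a1 * p.a2 * p.a43 + p.a42 * p.a21 * p.a13

/-- the semigroup -/
def S : AddSubmonoid ℕ := AddSubmonoid.closure {p.n1, p.n2, p.n3, p.n4}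

/-- the degrees of the five relations -/
def m : Fin 5 → ℕ := ![p.a1 * p.n1, p.a2 * p.n2, p.a3 * p.n3, p.a4 * p.n4,
  p.a43 * p.n3 + p.a21 * p.n1]

/-- half the sum of the five degrees -/
def c : ℕ := p.a2 * p.n2 + p.a3 * p.n3 + p.a14 * p.n4

/-- exponents `(a, b, d)` of the monomials `x2 ^ a x3 ^ b x4 ^ d` in normal form -/
def NF : Finset (ℕ × ℕ × ℕ) :=
  (range p.a2 ×ˢ range p.a3 ×ˢ range p.a14) ∪ (range p.a32 ×ˢ range p.a13 ×ˢ Ico p.a14 p.a4)

def wt (q : ℕ × ℕ × ℕ) : ℕ := q.1 * p.n2 + q.2.1 * p.n3 + q.2.2 * p.n4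

end Par

end Pool.Agent.W2helper94.CY
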