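import Pool.Agent.W2helper94.CY.D
import Pool.Agent.W2helper69.CY.A1a
import Pool.Agent.W2helper53.CY.A1b
import Pool.Agent.W2helper53.CY.A2
import Pool.Agent.W2helper12.CY.A3
import Pool.Agent.W2helper51.CY.Coeff
import Pool.Agent.W2helper2.CY.B1
import Pool.Agent.W4helper65.CY.C

set_option autoImplicit false

namespace Pool.Agent.W2helper94.CY

open Polynomial Finset

/-- the numerator in symmetric form -/
theorem numer5_eq (m : Fin 5 → ℕ) (c : ℕ) :
    numer5 (m 0) (m 1) (m 2) (m 3) (m 4) c =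
      1 - ∑ i, X ^ m i + ∑ i, X ^ (c - m i) - X ^ c := by
  rw [numer5, Fin.sum_univ_five, Fin.sum_univ_five]

theorem numer5_perm (m : Fin 5 → ℕ) (c : ℕ) (σ : Equiv.Perm (Fin 5)) :
    numer5 (m (σ 0)) (m (σ 1)) (m (σ 2)) (m (σ 3)) (m (σ 4)) c =
      numer5 (m 0) (m 1) (m 2) (m 3) (m 4) c := by
  rw [numer5_eq m c]
  have h := numer5_eq (fun i => m (σ i)) c
  rw [h]
  have h1 : ∑ i, (X : ℤ[X]) ^ m (σ i) = ∑ i, X ^ m i := Equiv.sum_comp σ (fun i => (X : ℤ[X]) ^ m i)
  have h2 : ∑ i, (X : ℤ[X]) ^ (c - m (σ i)) = ∑ i, X ^ (c - m i) :=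
    Equiv.sum_comp σ (fun i => (X : ℤ[X]) ^ (c - m i))
  rw [h1, h2]

theorem bad_pair (p : Par) (i j : Fin 5) (hij : i ≠ j) (h : p.c ≤ p.m i + p.m j) :
    (i = 0 ∧ j = 2) ∨ (i = 2 ∧ j = 0) ∨ (i = 1 ∧ j = 3) ∨ (i = 3 ∧ j = 1) := by
  by_contra hcon
  push Not at hcon
  have := Pool.Agent.W2helper12.CY.pair_lt p i j hij (by tauto) (by tauto) (by tauto) (by tauto)
  omega

/-- the numerator of a sorted list of degrees is not a product of cyclotomic polynomials -/
theorem numer_not_cyclotomic (m1 m2 m3 m4 m5 c : ℕ) (h0 : 0 < m1) (h12 : m1 ≤ m2) (h23 : m2 ≤ m3)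
    (h34 : m3 ≤ m4) (h45 : m4 ≤ m5) (h35 : m3 + m5 < c) (hne : m4 + m5 ≠ c)
    (hs : m1 + m2 + m3 + m4 + m5 = 2 * c)
    (H : 2 * m4 < c ∨ c ≤ 2 * (m1 + m2) ∨ 4 * m5 ≤ 3 * c)
    (T : Multiset ℕ) (hT : ∀ n ∈ T, 0 < n) (hT1 : T.count 1 = 3)
    (hK : numer5 m1 m2 m3 m4 m5 c = -(T.map fun n => cyclotomic n ℤ).prod) : False := by
  have hb : ∀ n ∈ T, n < c := by
    intro n hn
    by_contra hcon
    apply Pool.Agent.W4helper65.CY.no_large_order m1 m2 m3 m4 m5 c h0 h12 h23 h34 h45 h35
      (by omega) hs n (by omega)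
    rw [hK, dvd_neg]
    exact Multiset.dvd_prod (Multiset.mem_map_of_mem _ hn)
  have hc0 : (numer5 m1 m2 m3 m4 m5 c).coeff 0 = 1 := by
    rw [coeff_numer5, if_pos rfl, if_neg (by omega), if_neg (by omega), if_neg (by omega),
      if_neg (by omega), if_neg (by omega), if_neg (by omega), if_neg (by omega),
      if_neg (by omega), if_neg (by omega), if_neg (by omega), if_neg (by omega)]
    norm_num
  have hdegK : (numer5 m1 m2 m3 m4 m5 c).natDegree = c := by
    apply natDegree_eq_of_le_of_coeff_ne_zero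
    · rw [natDegree_le_iff_coeff_eq_zero]
      intro N hN
      rw [coeff_numer5, if_neg (by omega), if_neg (by omega), if_neg (by omega), if_neg (by omega),
        if_neg (by omega), if_neg (by omega), if_neg (by omega), if_neg (by omega),
        if_neg (by omega), if_neg (by omega), if_neg (by omega), if_neg (by omega)]
      norm_num
    · rw [coeff_numer5, if_neg (by omega), if_neg (by omega), if_neg (by omega), if_neg (by omega),
        if_neg (by omega), if_neg (by omega), if_neg (by omega), if_neg (by omega),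
        if_neg (by omega), if_neg (by omega), if_neg (by omega), if_pos rfl]
      norm_num
  obtain ⟨e, he0, hec, hcount, hdeg, hprod⟩ :=
    Pool.Agent.W2helper2.CY.exists_exponents T c hT hb _ (Or.inr hK) hc0
  have hco : Coeffs (numer5 m1 m2 m3 m4 m5 c) e := fun s hs G hG hG0 N hN =>
    Pool.Agent.W2helper51.CY.exponents_coeff _ c e he0 hec hprod s hs G hG hG0 N hN
  have hM : ∀ n, 0 < n → 0 ≤ ∑ k ∈ Icc 1 c, e (k * n) := by
    intro n hn
    rw [← hcount n hn]
    positivity
  have hthree : ∑ d ∈ range c, e d = 3 := by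
    have h1 := hcount 1 Nat.one_pos
    rw [hT1] at h1
    simp only [mul_one] at h1
    have h2 : ∑ k ∈ Icc 1 c, e k = ∑ k ∈ range (c + 1), e k := by
      apply Finset.sum_subset
      · intro k hk
        rw [Finset.mem_Icc] at hk
        rw [Finset.mem_range]
        omega
      · intro k hk hk'
        rw [Finset.mem_range] at hk
        rw [Finset.mem_Icc] at hk'
        have : k = 0 := by omega
        rw [this, he0]
    rw [h2, Finset.sum_range_succ, hec c le_rfl, add_zero] at h1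
    rw [← h1]
    norm_num
  rw [hdegK] at hdeg
  exact core m1 m2 m3 m4 m5 c h0 h12 h23 h34 h45 h35 hne hs H e he0 hec hM hdeg hthree hco

theorem prod_divisors (n : ℕ) (hn : 0 < n) :
    ((n.divisors.val).map fun k => cyclotomic k ℤ).prod = X ^ n - 1 := by
  have := prod_cyclotomic_eq_X_pow_sub_one hn ℤ
  rw [← this]
  rfl

theorem count_divisors (n : ℕ) (hn : 0 < n) : (n.divisors.val).count 1 = 1 :=
  Multiset.count_eq_one_of_mem n.divisors.nodup (Nat.one_mem_divisors.2 hn.ne')

theorem pos_of_mem_divisors (n k : ℕ) (h : k ∈ n.divisors.val) : 0 < k :=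
  Nat.pos_of_mem_divisors (m := k) (n := n) h

theorem filter_prod (s : Multiset ℕ) :
    (s.map fun k => cyclotomic k ℤ).prod = ((s.filter (0 < ·)).map fun k => cyclotomic k ℤ).prod := by
  induction s using Multiset.induction_on with
  | empty => simp
  | cons a s ih =>
    rcases Nat.eq_zero_or_pos a with h | h
    · rw [Multiset.filter_cons_of_neg (p := fun x => 0 < x) s (by omega), Multiset.map_cons, Multiset.prod_cons, h,
        cyclotomic_zero, one_mul, ih]
    · rw [Multiset.filter_cons_of_pos (p := fun x => 0 < x) s h, Multiset.map_cons, Multiset.prod_cons, Multiset.map_cons,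
        Multiset.prod_cons, ih]

/-- the condition on the relation degrees -/
def Par.Good (p : Par) : Prop :=
  (∀ i, 4 * p.m i ≤ 3 * p.c) ∨ (∀ i j, i ≠ j → 2 * p.m i < p.c ∨ 2 * p.m j < p.c) ∨
    (∀ i j, i ≠ j → p.c ≤ 2 * (p.m i + p.m j))

theorem main (p : Par) (hg : Nat.gcd (Nat.gcd p.n1 p.n2) (Nat.gcd p.n3 p.n4) = 1)
    (H : p.Good) (hS : ((p.S : Set ℕ)ᶜ).Finite) :
    ¬ ∃ mset : Multiset ℕ, (1 - (1 - X) * ∑ n ∈ hS.toFinset, X ^ n : ℤ[X]) =
      (mset.map fun k => cyclotomic k ℤ).prod := by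
  rintro ⟨mset, hms⟩
  have hn1 := Pool.Agent.W2helper12.CY.n1_pos p
  have hn2 := Pool.Agent.W2helper12.CY.n2_pos p
  have hn3 := Pool.Agent.W2helper12.CY.n3_pos p
  have hn4 := Pool.Agent.W2helper12.CY.n4_pos p
  have hinj := Pool.Agent.W2helper53.CY.nf_inj p (Pool.Agent.W2helper69.CY.nf_card p)
    (Pool.Agent.W2helper69.CY.nf_reduce p) hg
  have hgap := Pool.Agent.W2helper53.CY.gaps_identity (p.S : Set ℕ) hS p.n1 hn1 p.NF p.wt
    (by
      intro x
      constructor
      · intro hx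
        exact Pool.Agent.W2helper69.CY.nf_reduce p x hx
      · rintro ⟨q, _, k, rfl⟩
        exact Pool.Agent.W2helper69.CY.nf_mem p q k)
    (fun q hq q' hq' k k' h => hinj q q' hq hq' k k' h)
  have hexp := Pool.Agent.W2helper12.CY.nf_expand p
  set Q : ℤ[X] := 1 - (1 - X) * ∑ n ∈ hS.toFinset, X ^ n with hQ
  -- the filtered multiset
  set ms := mset.filter (0 < ·) with hmsdef
  have hQ' : Q = (ms.map fun k => cyclotomic k ℤ).prod := by
    rw [hms, filter_prod]
  have hms1 : ms.count 1 = 0 := by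
    by_contra hcon
    have hmem : 1 ∈ ms := by
      by_contra h
      exact hcon (Multiset.count_eq_zero_of_notMem h)
    have hdvd : cyclotomic 1 ℤ ∣ Q := by
      rw [hQ']
      exact Multiset.dvd_prod (Multiset.mem_map_of_mem _ hmem)
    obtain ⟨R, hR⟩ := hdvd
    have h1 : Q.eval 1 = 1 := by
      rw [hQ]; simp
    have h2 : Q.eval 1 = 0 := by
      rw [hR, cyclotomic_one]; simp
    rw [h1] at h2
    exact one_ne_zero h2
  set T : Multiset ℕ := ms + (p.n1.divisors.val).erase 1 + p.n2.divisors.val + p.n3.divisors.val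
    + p.n4.divisors.val with hTdef
  have hone : cyclotomic 1 ℤ * (((p.n1.divisors.val).erase 1).map fun k => cyclotomic k ℤ).prod =
      X ^ p.n1 - 1 := by
    rw [← prod_divisors p.n1 hn1]
    have hmem : 1 ∈ p.n1.divisors.val := by
      rw [Finset.mem_val]
      exact Nat.one_mem_divisors.2 hn1.ne'
    conv_rhs => rw [← Multiset.cons_erase hmem]
    rw [Multiset.map_cons, Multiset.prod_cons]
  have hK : numer5 (p.m 0) (p.m 1) (p.m 2) (p.m 3) (p.m 4) p.c =
      -(T.map fun n => cyclotomic n ℤ).prod := by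
    have hTprod : (T.map fun n => cyclotomic n ℤ).prod = Q *
        (((p.n1.divisors.val).erase 1).map fun k => cyclotomic k ℤ).prod * (X ^ p.n2 - 1) *
          (X ^ p.n3 - 1) * (X ^ p.n4 - 1) := by
      rw [hTdef, Multiset.map_add, Multiset.map_add, Multiset.map_add, Multiset.map_add,
        Multiset.prod_add, Multiset.prod_add, Multiset.prod_add, Multiset.prod_add,
        prod_divisors _ hn2, prod_divisors _ hn3, prod_divisors _ hn4, hQ']
    have hX : (X - 1 : ℤ[X]) ≠ 0 := by
      have := Polynomial.X_sub_C_ne_zero (1 : ℤ)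
      simpa using this
    apply mul_left_cancel₀ hX
    rw [hTprod, ← hexp]
    have e1 : (X - 1 : ℤ[X]) * -(Q *
        (((p.n1.divisors.val).erase 1).map fun k => cyclotomic k ℤ).prod * (X ^ p.n2 - 1) *
          (X ^ p.n3 - 1) * (X ^ p.n4 - 1)) =
        (Q * (1 - X ^ p.n1)) * -((1 - X ^ p.n2) * (1 - X ^ p.n3) * (1 - X ^ p.n4)) := by
      rw [cyclotomic_one] at hone
      have : (1 - X ^ p.n1 : ℤ[X]) = - ((X - 1) *
        (((p.n1.divisors.val).erase 1).map fun k => cyclotomic k ℤ).prod) := by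
        rw [hone]; ring
      rw [this]; ring
    rw [e1, hgap]
    ring
  have hTpos : ∀ n ∈ T, 0 < n := by
    intro n hn
    simp only [hTdef, Multiset.mem_add] at hn
    rcases hn with (((h | h) | h) | h) | h
    · exact (Multiset.mem_filter.1 h).2
    · exact pos_of_mem_divisors _ _ (Multiset.mem_of_mem_erase h)
    · exact pos_of_mem_divisors _ _ h
    · exact pos_of_mem_divisors _ _ h
    · exact pos_of_mem_divisors _ _ h
  have hT1 : T.count 1 = 3 := by
    rw [hTdef, Multiset.count_add, Multiset.count_add, Multiset.count_add, Multiset.count_add,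
      hms1, Multiset.count_erase_self, count_divisors _ hn1, count_divisors _ hn2,
      count_divisors _ hn3, count_divisors _ hn4]
  -- sorting
  set σ := Tuple.sort p.m with hσ
  have hmono := Tuple.monotone_sort p.m
  have q01 : p.m (σ 0) ≤ p.m (σ 1) := hmono (by decide)
  have q12 : p.m (σ 1) ≤ p.m (σ 2) := hmono (by decide)
  have q23 : p.m (σ 2) ≤ p.m (σ 3) := hmono (by decide)
  have q34 : p.m (σ 3) ≤ p.m (σ 4) := hmono (by decide)
  have hsum : p.m (σ 0) + p.m (σ 1) + p.m (σ 2) + p.m (σ 3) + p.m (σ 4) = 2 * p.c := by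
    have h1 := Pool.Agent.W2helper12.CY.sum_m p
    have h2 : ∑ i, p.m (σ i) = ∑ i, p.m i := Equiv.sum_comp σ p.m
    rw [Fin.sum_univ_five, Fin.sum_univ_five] at h2
    omega
  have hpn := Pool.Agent.W2helper12.CY.pair_ne p
    (fun q q' hq hq' k k' h => hinj q q' hq hq' k k' h)
  have h35 : p.m (σ 2) + p.m (σ 4) < p.c := by
    by_contra hcon
    have b1 := bad_pair p (σ 2) (σ 4) (fun h => absurd (σ.injective h) (by decide)) (by omega)
    have b2 := bad_pair p (σ 3) (σ 4) (fun h => absurd (σ.injective h) (by decide)) (by omega)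
    have hne : σ 2 ≠ σ 3 := fun h => absurd (σ.injective h) (by decide)
    generalize σ 2 = a at *
    generalize σ 3 = b at *
    generalize σ 4 = d at *
    rcases b1 with ⟨h1, h2⟩ | ⟨h1, h2⟩ | ⟨h1, h2⟩ | ⟨h1, h2⟩ <;>
      rcases b2 with ⟨h3, h4⟩ | ⟨h3, h4⟩ | ⟨h3, h4⟩ | ⟨h3, h4⟩ <;>
      first
        | exact hne (h1.trans h3.symm)
        | exact absurd (h2.symm.trans h4) (by decide)
  have hne : p.m (σ 3) + p.m (σ 4) ≠ p.c := by
    intro hcon
    have b2 := bad_pair p (σ 3) (σ 4) (fun h => absurd (σ.injective h) (by decide)) (by omega)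
    rcases b2 with ⟨h3, h4⟩ | ⟨h3, h4⟩ | ⟨h3, h4⟩ | ⟨h3, h4⟩
    · rw [h3, h4] at hcon; exact hpn.1 hcon
    · rw [h3, h4] at hcon; exact hpn.1 (by omega)
    · rw [h3, h4] at hcon; exact hpn.2 hcon
    · rw [h3, h4] at hcon; exact hpn.2 (by omega)
  have hH : 2 * p.m (σ 3) < p.c ∨ p.c ≤ 2 * (p.m (σ 0) + p.m (σ 1)) ∨ 4 * p.m (σ 4) ≤ 3 * p.c := by
    rcases H with h | h | h
    · exact Or.inr (Or.inr (h _))
    · left
      rcases h (σ 3) (σ 4) (fun h => absurd (σ.injective h) (by decide)) with h | h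
      · exact h
      · omega
    · right; left
      exact h (σ 0) (σ 1) (fun h => absurd (σ.injective h) (by decide))
  rw [← numer5_perm p.m p.c σ] at hK
  exact numer_not_cyclotomic _ _ _ _ _ _ (Pool.Agent.W2helper12.CY.m_pos p _) q01 q12 q23 q34 h35
    hne hsum hH T hTpos hT1 hK

end Pool.Agent.W2helper94.CY
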