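import Pool.Agent.W2helper94.CY.E
import Pool.Agent.W2helper88.CY.F1
import Pool.Agent.W2helper24.CY.F2
import Pool.Agent.W2helper81.CY.F3
import Pool.Agent.W2helper12.CY.F4

set_option autoImplicit false

namespace Pool.Agent.W2helper94.CY

open Polynomial Finset

/-- two large degrees -/
theorem numer_large (m1 m2 m3 m4 m5 c : ℕ) (h0 : 0 < m1) (h12 : m1 ≤ m2) (h23 : m2 ≤ m3)
    (h34 : m3 ≤ m4) (h45 : m4 ≤ m5) (h35 : m3 + m5 < c)
    (hs : m1 + m2 + m3 + m4 + m5 = 2 * c) (h44 : c ≤ 2 * m4)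
    (T : Multiset ℕ) (hT : ∀ n ∈ T, 0 < n) (N : ℕ) (hN : 0 < N) (hTN : 0 < T.count N)
    (G : AddSubmonoid ℕ) (g1 : m1 ∈ G) (g2 : m2 ∈ G) (g3 : m3 ∈ G) (g4 : c - m4 ∈ G)
    (g5 : c - m5 ∈ G) (hmul : ∀ k, 0 < k → k * N < m4 → k * N ∉ G)
    (hK : numer5 m1 m2 m3 m4 m5 c = -(T.map fun n => cyclotomic n ℤ).prod) : False := by
  have hb : ∀ n ∈ T, n < m4 := by
    intro n hn
    by_contra hcon
    have hdvd : cyclotomic n ℤ ∣ numer5 m1 m2 m3 m4 m5 c := by
      rw [hK, dvd_neg]
      exact Multiset.dvd_prod (Multiset.mem_map_of_mem _ hn)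
    by_cases hnc : n < c
    · exact Pool.Agent.W2helper24.CY.no_mid_order m1 m2 m3 m4 m5 c h0 h12 h23 h34 h45 h35 h44 hs n (by omega) hnc hdvd
    · exact Pool.Agent.W4helper65.CY.no_large_order m1 m2 m3 m4 m5 c h0 h12 h23 h34 h45 h35
        (by omega) hs n (by omega) hdvd
  have hc0 : (numer5 m1 m2 m3 m4 m5 c).coeff 0 = 1 := by
    rw [coeff_numer5, if_pos rfl, if_neg (by omega), if_neg (by omega), if_neg (by omega),
      if_neg (by omega), if_neg (by omega), if_neg (by omega), if_neg (by omega),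
      if_neg (by omega), if_neg (by omega), if_neg (by omega), if_neg (by omega)]
    norm_num
  obtain ⟨e, he0, hec, hcount, -, hprod⟩ :=
    Pool.Agent.W2helper2.CY.exists_exponents T m4 hT hb _ (Or.inr hK) hc0
  have hsup : ∀ d, d < m4 → d ∉ G → (numer5 m1 m2 m3 m4 m5 c).coeff d = 0 := by
    intro d hd hdG
    have e0 : d ≠ 0 := by
      rintro rfl
      exact hdG G.zero_mem
    have e1 : d ≠ m1 := by
      rintro rfl
      exact hdG g1
    have e2 : d ≠ m2 := by
      rintro rfl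
      exact hdG g2
    have e3 : d ≠ m3 := by
      rintro rfl
      exact hdG g3
    have e4 : d ≠ c - m4 := by
      rintro rfl
      exact hdG g4
    have e5 : d ≠ c - m5 := by
      rintro rfl
      exact hdG g5
    rw [coeff_numer5, if_neg e0, if_neg e1, if_neg e2, if_neg e3,
      if_neg (by omega), if_neg (by omega), if_neg (by omega), if_neg (by omega),
      if_neg (by omega), if_neg e4, if_neg e5, if_neg (by omega)]
    norm_num
  have hsupp := Pool.Agent.W2helper88.CY.exps_support _ m4 e he0 hc0 hprod G hsup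
  have hzero : (T.count N : ℤ) = 0 := by
    rw [hcount N hN]
    apply Finset.sum_eq_zero
    intro k hk
    rw [Finset.mem_Icc] at hk
    by_contra hne
    by_cases hlt : k * N < m4
    · exact hmul k (by omega) hlt (hsupp _ hlt hne)
    · exact hne (hec _ (by omega))
  have : T.count N = 0 := by exact_mod_cast hzero
  omega

/-- the multiset of the orders of the zeros of the numerator -/
theorem exists_T (p : Par) (hg : Nat.gcd (Nat.gcd p.n1 p.n2) (Nat.gcd p.n3 p.n4) = 1)
    (A : Set ℕ) (hA : A = (p.S : Set ℕ)) (hS : Aᶜ.Finite)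
    (h : ∃ mset : Multiset ℕ, (1 - (1 - X) * ∑ n ∈ hS.toFinset, X ^ n : ℤ[X]) =
      (mset.map fun k => cyclotomic k ℤ).prod) :
    ∃ T : Multiset ℕ, (∀ n ∈ T, 0 < n) ∧ T.count 1 = 3 ∧ 0 < T.count p.n1 ∧
      numer5 (p.m 0) (p.m 1) (p.m 2) (p.m 3) (p.m 4) p.c =
        -(T.map fun n => cyclotomic n ℤ).prod := by
  obtain ⟨mset, hms⟩ := h
  have hn1 := Pool.Agent.W2helper12.CY.n1_pos p
  have hn2 := Pool.Agent.W2helper12.CY.n2_pos p
  have hn3 := Pool.Agent.W2helper12.CY.n3_pos p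
  have hn4 := Pool.Agent.W2helper12.CY.n4_pos p
  have hinj := Pool.Agent.W2helper53.CY.nf_inj p (Pool.Agent.W2helper69.CY.nf_card p)
    (Pool.Agent.W2helper69.CY.nf_reduce p) hg
  have hgap := Pool.Agent.W2helper53.CY.gaps_identity A hS p.n1 hn1 p.NF p.wt
    (by
      intro x
      rw [hA]
      constructor
      · intro hx
        exact Pool.Agent.W2helper69.CY.nf_reduce p x hx
      · rintro ⟨q, _, k, rfl⟩
        exact Pool.Agent.W2helper69.CY.nf_mem p q k)
    (fun q hq q' hq' k k' h => hinj q q' hq hq' k k' h)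
  have hexp := Pool.Agent.W2helper12.CY.nf_expand p
  set Q : ℤ[X] := 1 - (1 - X) * ∑ n ∈ hS.toFinset, X ^ n with hQ
  set ms := mset.filter (0 < ·) with hmsdef
  have hQ' : Q = (ms.map fun k => cyclotomic k ℤ).prod := by
    rw [hms, filter_prod]
  have hms1 : ms.count 1 = 0 := by
    by_contra hcon
    have hmem : 1 ∈ ms := by
      by_contra h
      exact hcon (Multiset.count_eq_zero_of_notMem h)
    have hdvd : cyclotomic 1 ℤ ∣ Q := by
      rw [hQ']
      exact Multiset.dvd_prod (Multiset.mem_map_of_mem _ hmem)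
    obtain ⟨R, hR⟩ := hdvd
    have h1 : Q.eval 1 = 1 := by
      rw [hQ]; simp
    have h2 : Q.eval 1 = 0 := by
      rw [hR, cyclotomic_one]; simp
    rw [h1] at h2
    exact one_ne_zero h2
  set T : Multiset ℕ := ms + (p.n1.divisors.val).erase 1 + p.n2.divisors.val + p.n3.divisors.val
    + p.n4.divisors.val with hTdef
  have hone : cyclotomic 1 ℤ * (((p.n1.divisors.val).erase 1).map fun k => cyclotomic k ℤ).prod =
      X ^ p.n1 - 1 := by
    rw [← prod_divisors p.n1 hn1]
    have hmem : 1 ∈ p.n1.divisors.val := by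
      rw [Finset.mem_val]
      exact Nat.one_mem_divisors.2 hn1.ne'
    conv_rhs => rw [← Multiset.cons_erase hmem]
    rw [Multiset.map_cons, Multiset.prod_cons]
  refine ⟨T, ?_, ?_, ?_, ?_⟩
  · intro n hn
    simp only [hTdef, Multiset.mem_add] at hn
    rcases hn with (((h | h) | h) | h) | h
    · exact (Multiset.mem_filter.1 h).2
    · exact pos_of_mem_divisors _ _ (Multiset.mem_of_mem_erase h)
    · exact pos_of_mem_divisors _ _ h
    · exact pos_of_mem_divisors _ _ h
    · exact pos_of_mem_divisors _ _ h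
  · rw [hTdef, Multiset.count_add, Multiset.count_add, Multiset.count_add, Multiset.count_add,
      hms1, Multiset.count_erase_self, count_divisors _ hn1, count_divisors _ hn2,
      count_divisors _ hn3, count_divisors _ hn4]
  · have hne : p.n1 ≠ 1 := by
      have k1 : 0 < p.a2 * p.a3 * p.a14 := by
        have := p.h32; have := p.h13; have := p.h14
        unfold Par.a2 Par.a3; positivity
      have k2 : 0 < p.a32 * p.a13 * p.a24 := by
        have := p.h32; have := p.h13; have := p.h24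
        positivity
      unfold Par.n1
      omega
    rw [Multiset.count_pos, hTdef]
    simp only [Multiset.mem_add]
    refine Or.inl (Or.inl (Or.inl (Or.inr ?_)))
    rw [Multiset.mem_erase_of_ne hne, Finset.mem_val]
    exact Nat.mem_divisors_self _ hn1.ne'
  · have hTprod : (T.map fun n => cyclotomic n ℤ).prod = Q *
        (((p.n1.divisors.val).erase 1).map fun k => cyclotomic k ℤ).prod * (X ^ p.n2 - 1) *
          (X ^ p.n3 - 1) * (X ^ p.n4 - 1) := by
      rw [hTdef, Multiset.map_add, Multiset.map_add, Multiset.map_add, Multiset.map_add,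
        Multiset.prod_add, Multiset.prod_add, Multiset.prod_add, Multiset.prod_add,
        prod_divisors _ hn2, prod_divisors _ hn3, prod_divisors _ hn4, hQ']
    have hX : (X - 1 : ℤ[X]) ≠ 0 := by
      have := Polynomial.X_sub_C_ne_zero (1 : ℤ)
      simpa using this
    apply mul_left_cancel₀ hX
    rw [hTprod, ← hexp]
    have e1 : (X - 1 : ℤ[X]) * -(Q *
        (((p.n1.divisors.val).erase 1).map fun k => cyclotomic k ℤ).prod * (X ^ p.n2 - 1) *
          (X ^ p.n3 - 1) * (X ^ p.n4 - 1)) =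
        (Q * (1 - X ^ p.n1)) * -((1 - X ^ p.n2) * (1 - X ^ p.n3) * (1 - X ^ p.n4)) := by
      rw [cyclotomic_one] at hone
      have : (1 - X ^ p.n1 : ℤ[X]) = - ((X - 1) *
        (((p.n1.divisors.val).erase 1).map fun k => cyclotomic k ℤ).prod) := by
        rw [hone]; ring
      rw [this]; ring
    rw [e1, hgap]
    ring

/-- the degrees in increasing order -/
theorem sorted (p : Par) (hg : Nat.gcd (Nat.gcd p.n1 p.n2) (Nat.gcd p.n3 p.n4) = 1) :
    ∃ σ : Equiv.Perm (Fin 5), p.m (σ 0) ≤ p.m (σ 1) ∧ p.m (σ 1) ≤ p.m (σ 2) ∧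
      p.m (σ 2) ≤ p.m (σ 3) ∧ p.m (σ 3) ≤ p.m (σ 4) ∧
      p.m (σ 0) + p.m (σ 1) + p.m (σ 2) + p.m (σ 3) + p.m (σ 4) = 2 * p.c ∧
      p.m (σ 2) + p.m (σ 4) < p.c ∧ p.m (σ 3) + p.m (σ 4) ≠ p.c := by
  have hinj := Pool.Agent.W2helper53.CY.nf_inj p (Pool.Agent.W2helper69.CY.nf_card p)
    (Pool.Agent.W2helper69.CY.nf_reduce p) hg
  set σ := Tuple.sort p.m with hσ
  have hmono := Tuple.monotone_sort p.m
  have q01 : p.m (σ 0) ≤ p.m (σ 1) := hmono (by decide)
  have q12 : p.m (σ 1) ≤ p.m (σ 2) := hmono (by decide)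
  have q23 : p.m (σ 2) ≤ p.m (σ 3) := hmono (by decide)
  have q34 : p.m (σ 3) ≤ p.m (σ 4) := hmono (by decide)
  have hsum : p.m (σ 0) + p.m (σ 1) + p.m (σ 2) + p.m (σ 3) + p.m (σ 4) = 2 * p.c := by
    have h1 := Pool.Agent.W2helper12.CY.sum_m p
    have h2 : ∑ i, p.m (σ i) = ∑ i, p.m i := Equiv.sum_comp σ p.m
    rw [Fin.sum_univ_five, Fin.sum_univ_five] at h2
    omega
  have hpn := Pool.Agent.W2helper12.CY.pair_ne p
    (fun q q' hq hq' k k' h => hinj q q' hq hq' k k' h)
  have h35 : p.m (σ 2) + p.m (σ 4) < p.c := by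
    by_contra hcon
    have b1 := bad_pair p (σ 2) (σ 4) (fun h => absurd (σ.injective h) (by decide)) (by omega)
    have b2 := bad_pair p (σ 3) (σ 4) (fun h => absurd (σ.injective h) (by decide)) (by omega)
    have hne : σ 2 ≠ σ 3 := fun h => absurd (σ.injective h) (by decide)
    generalize σ 2 = a at *
    generalize σ 3 = b at *
    generalize σ 4 = d at *
    rcases b1 with ⟨h1, h2⟩ | ⟨h1, h2⟩ | ⟨h1, h2⟩ | ⟨h1, h2⟩ <;>
      rcases b2 with ⟨h3, h4⟩ | ⟨h3, h4⟩ | ⟨h3, h4⟩ | ⟨h3, h4⟩ <;>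
      first
        | exact hne (h1.trans h3.symm)
        | exact absurd (h2.symm.trans h4) (by decide)
  refine ⟨σ, q01, q12, q23, q34, hsum, h35, ?_⟩
  intro hcon
  have b2 := bad_pair p (σ 3) (σ 4) (fun h => absurd (σ.injective h) (by decide)) (by omega)
  rcases b2 with ⟨h3, h4⟩ | ⟨h3, h4⟩ | ⟨h3, h4⟩ | ⟨h3, h4⟩
  · rw [h3, h4] at hcon; exact hpn.1 hcon
  · rw [h3, h4] at hcon; exact hpn.1 (by omega)
  · rw [h3, h4] at hcon; exact hpn.2 hcon
  · rw [h3, h4] at hcon; exact hpn.2 (by omega)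

/-- the case when `a1 n1` and `a3 n3` are at least `c / 2` -/
theorem large_case (p : Par) (hg : Nat.gcd (Nat.gcd p.n1 p.n2) (Nat.gcd p.n3 p.n4) = 1)
    (A : Set ℕ) (hA : A = (p.S : Set ℕ)) (hS : Aᶜ.Finite)
    (h : ∃ mset : Multiset ℕ, (1 - (1 - X) * ∑ n ∈ hS.toFinset, X ^ n : ℤ[X]) =
      (mset.map fun k => cyclotomic k ℤ).prod)
    (hm0 : p.c ≤ 2 * p.m 0) (hm2 : p.c ≤ 2 * p.m 2) : False := by
  have hinj := Pool.Agent.W2helper53.CY.nf_inj p (Pool.Agent.W2helper69.CY.nf_card p)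
    (Pool.Agent.W2helper69.CY.nf_reduce p) hg
  obtain ⟨T, hTpos, -, hTn, hK⟩ := exists_T p hg A hA hS h
  obtain ⟨σ, q01, q12, q23, q34, hsum, h35, hne⟩ := sorted p hg
  rw [← numer5_perm p.m p.c σ] at hK
  -- the other three degrees are smaller than c / 2
  have s1 : 2 * p.m 1 < p.c := by
    have := Pool.Agent.W2helper12.CY.pair_lt p 1 2 (by decide) (by decide) (by decide) (by decide)
      (by decide)
    omega
  have s3 : 2 * p.m 3 < p.c := by
    have := Pool.Agent.W2helper12.CY.pair_lt p 3 2 (by decide) (by decide) (by decide) (by decide)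
      (by decide)
    omega
  have s4 : 2 * p.m 4 < p.c := by
    have := Pool.Agent.W2helper12.CY.pair_lt p 4 2 (by decide) (by decide) (by decide) (by decide)
      (by decide)
    omega
  have small : ∀ i : Fin 5, i ≠ 0 → i ≠ 2 → 2 * p.m i < p.c := by
    intro i h0 h2
    fin_cases i
    · exact absurd rfl h0
    · exact s1
    · exact absurd rfl h2
    · exact s3
    · exact s4
  have big3 : p.c ≤ 2 * p.m (σ 3) := by
    by_contra hcon
    have hall : ∀ i : Fin 5, p.c ≤ 2 * p.m (σ i) → i = 4 := by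
      intro i hi
      fin_cases i
      · exfalso; simp only [Fin.zero_eta] at hi; omega
      · exfalso; simp only [Fin.mk_one] at hi; omega
      · exfalso; simp only [Fin.reduceFinMk] at hi; omega
      · exfalso; simp only [Fin.reduceFinMk] at hi; omega
      · rfl
    have e0 := hall (σ.symm 0) (by rw [Equiv.apply_symm_apply]; exact hm0)
    have e2 := hall (σ.symm 2) (by rw [Equiv.apply_symm_apply]; exact hm2)
    have := σ.symm.injective (e0.trans e2.symm)
    exact absurd this (by decide)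
  have in3 : σ 3 = 0 ∨ σ 3 = 2 := by
    by_contra hcon
    push Not at hcon
    have := small (σ 3) hcon.1 hcon.2
    omega
  have in4 : σ 4 = 0 ∨ σ 4 = 2 := by
    by_contra hcon
    push Not at hcon
    have := small (σ 4) hcon.1 hcon.2
    omega
  have n34 : σ 3 ≠ σ 4 := fun h => absurd (σ.injective h) (by decide)
  set G : AddSubmonoid ℕ := AddSubmonoid.closure {p.n2, p.n4} with hG
  have gm : ∀ x i j : ℕ, i * p.n2 + j * p.n4 = x → x ∈ G := by
    intro x i j hx
    rw [hG, AddSubmonoid.mem_closure_pair]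
    exact ⟨i, j, by simpa [smul_eq_mul] using hx⟩
  have r5 := Pool.Agent.W2helper69.CY.r5 p
  have r0 := Pool.Agent.W2helper69.CY.r0 p
  have r3 := Pool.Agent.W2helper69.CY.r3 p
  have gsmall : ∀ i : Fin 5, i ≠ 0 → i ≠ 2 → p.m i ∈ G := by
    intro i h0 h2
    fin_cases i
    · exact absurd rfl h0
    · exact gm _ p.a2 0 (by simp [Par.m])
    · exact absurd rfl h2
    · exact gm _ 0 p.a4 (by simp [Par.m])
    · refine gm _ p.a32 p.a14 ?_
      rw [r5]
      show _ = p.a43 * p.n3 + p.a21 * p.n1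
      ring
  have gbig0 : p.c - p.m 0 ∈ G := by
    refine gm _ p.a32 p.a4 ?_
    have : p.c = p.m 0 + (p.a32 * p.n2 + p.a4 * p.n4) := by
      show p.a2 * p.n2 + p.a3 * p.n3 + p.a14 * p.n4 = p.a1 * p.n1 + (p.a32 * p.n2 + p.a4 * p.n4)
      rw [r0, r3]
      unfold Par.a2 Par.a3
      ring
    omega
  have gbig2 : p.c - p.m 2 ∈ G := by
    refine gm _ p.a2 p.a14 ?_
    have : p.c = p.m 2 + (p.a2 * p.n2 + p.a14 * p.n4) := by
      show p.a2 * p.n2 + p.a3 * p.n3 + p.a14 * p.n4 = p.a3 * p.n3 + (p.a2 * p.n2 + p.a14 * p.n4)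
      ring
    omega
  have nin : ∀ i : Fin 5, i ≠ 3 → i ≠ 4 → σ i ≠ 0 ∧ σ i ≠ 2 := by
    intro i h3 h4
    have k3 : σ i ≠ σ 3 := fun h => h3 (σ.injective h)
    have k4 : σ i ≠ σ 4 := fun h => h4 (σ.injective h)
    rcases in3 with h | h <;> rcases in4 with h' | h' <;> rw [h] at k3 n34 <;>
      rw [h'] at k4 n34
    · exact absurd rfl n34
    · exact ⟨k3, k4⟩
    · exact ⟨k4, k3⟩
    · exact absurd rfl n34
  have hm0' : p.m (σ 3) ≤ p.m 0 := by
    rcases in3 with h | h
    · rw [h]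
    · rcases in4 with h' | h'
      · rw [← h']; exact q34
      · exact absurd (h.trans h'.symm) n34
  refine numer_large _ _ _ _ _ _ (Pool.Agent.W2helper12.CY.m_pos p _) q01 q12 q23 q34 h35 hsum
    big3 T hTpos p.n1 (Pool.Agent.W2helper12.CY.n1_pos p) hTn G
    (gsmall _ (nin 0 (by decide) (by decide)).1 (nin 0 (by decide) (by decide)).2)
    (gsmall _ (nin 1 (by decide) (by decide)).1 (nin 1 (by decide) (by decide)).2)
    (gsmall _ (nin 2 (by decide) (by decide)).1 (nin 2 (by decide) (by decide)).2)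
    ?_ ?_ ?_ hK
  · rcases in3 with h | h <;> rw [h]
    · exact gbig0
    · exact gbig2
  · rcases in4 with h | h <;> rw [h]
    · exact gbig0
    · exact gbig2
  · intro k hk hlt hmem
    rw [hG, AddSubmonoid.mem_closure_pair] at hmem
    obtain ⟨i, j, hij⟩ := hmem
    simp only [smul_eq_mul] at hij
    have := Pool.Agent.W2helper81.CY.a1_min p (fun q q' hq hq' k k' h => hinj q q' hq hq' k k' h) k i 0 j hk
      (by rw [← hij]; ring)
    have h2 : p.m 0 ≤ k * p.n1 := Nat.mul_le_mul_right p.n1 this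
    omega

/-- **No Bresinsky semigroup is cyclotomic.** -/
theorem main_full (p : Par) (hg : Nat.gcd (Nat.gcd p.n1 p.n2) (Nat.gcd p.n3 p.n4) = 1)
    (hS : ((p.S : Set ℕ)ᶜ).Finite) :
    ¬ ∃ mset : Multiset ℕ, (1 - (1 - X) * ∑ n ∈ hS.toFinset, X ^ n : ℤ[X]) =
      (mset.map fun k => cyclotomic k ℤ).prod := by
  intro h
  obtain ⟨σ, q01, q12, q23, q34, hsum, h35, hne⟩ := sorted p hg
  by_cases hbig : 2 * p.m (σ 3) < p.c
  · obtain ⟨T, hTpos, hT1, -, hK⟩ := exists_T p hg _ rfl hS h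
    rw [← numer5_perm p.m p.c σ] at hK
    exact numer_not_cyclotomic _ _ _ _ _ _ (Pool.Agent.W2helper12.CY.m_pos p _) q01 q12 q23 q34 h35
      hne hsum (Or.inl hbig) T hTpos hT1 hK
  · have b := bad_pair p (σ 3) (σ 4) (fun h => absurd (σ.injective h) (by decide)) (by omega)
    have hrot : p.c ≤ 2 * p.m 1 → p.c ≤ 2 * p.m 3 → False := by
      intro h1 h3
      obtain ⟨e1, e2, e3, e4⟩ := Pool.Agent.W2helper12.CY.rot_n p
      obtain ⟨f0, f1, f2, f3, f4⟩ := Pool.Agent.W2helper12.CY.rot_m p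
      refine large_case p.rot ?_ (p.S : Set ℕ) (by rw [Pool.Agent.W2helper12.CY.rot_S]) hS h ?_ ?_
      · rw [e1, e2, e3, e4, Nat.gcd_comm p.n4 p.n1, Nat.gcd_assoc, ← Nat.gcd_assoc p.n4 p.n2 p.n3,
          Nat.gcd_comm p.n4 p.n2, Nat.gcd_assoc p.n2 p.n4 p.n3, ← Nat.gcd_assoc p.n1 p.n2,
          Nat.gcd_comm p.n4 p.n3]
        exact hg
      · rw [f0, Pool.Agent.W2helper12.CY.rot_c]; exact h3
      · rw [f2, Pool.Agent.W2helper12.CY.rot_c]; exact h1
    rcases b with ⟨h3, h4⟩ | ⟨h3, h4⟩ | ⟨h3, h4⟩ | ⟨h3, h4⟩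
    · rw [h3] at hbig q34; rw [h4] at q34
      exact large_case p hg _ rfl hS h (by omega) (by omega)
    · rw [h3] at hbig q34; rw [h4] at q34
      exact large_case p hg _ rfl hS h (by omega) (by omega)
    · rw [h3] at hbig q34; rw [h4] at q34
      exact hrot (by omega) (by omega)
    · rw [h3] at hbig q34; rw [h4] at q34
      exact hrot (by omega) (by omega)

end Pool.Agent.W2helper94.CY
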