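import Pool.Agent.W2helper94.CY.Defs

set_option autoImplicit false

namespace Pool.Agent.W2helper94.CY

/-- the cyclic symmetry of the relations -/
def Par.rot (p : Par) : Par where
  a21 := p.a14
  a31 := p.a24
  a32 := p.a21
  a42 := p.a31
  a13 := p.a42
  a43 := p.a32
  a14 := p.a43
  a24 := p.a13
  h21 := p.h14
  h31 := p.h24
  h32 := p.h21
  h42 := p.h31
  h13 := p.h42
  h43 := p.h32
  h14 := p.h43
  h24 := p.h13

end Pool.Agent.W2helper94.CY
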